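import Pool.Agent.Helper29.RC.Rcl
import Pool.Agent.Helper29.CC.Choice

/-!
Consequences for sets `A` of natural numbers with bounded representation function.
-/

open scoped Pointwise

namespace Pool.Agent.Helper29.RC

open Pool.Agent.Helper82.CF

/-- the truncated set has small representation numbers everywhere -/
theorem rep_trunc {A : Set ℕ} {g x : ℕ} (hg : ∀ n ≤ 2 * x, rep A n ≤ g) (n : ℕ) :
    rep {a | a ∈ A ∧ a ≤ x} n ≤ g := by
  rcases Nat.lt_or_ge (2 * x) n with h | h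
  · have h0 : rep {a | a ∈ A ∧ a ≤ x} n = 0 := by
      unfold rep
      rw [Set.ncard_eq_zero (rep_finite _ n)]
      ext p
      simp only [Set.mem_ofPred_eq, Set.mem_empty_iff_false, iff_false]
      rintro ⟨⟨-, h1⟩, ⟨-, h2⟩, h3⟩
      omega
    rw [h0]
    exact Nat.zero_le _
  · exact (CC.rep_mono (fun a ha => ha.1) n).trans (hg n h)

/-- symmetry of a translate of a cube -/
theorem cube_sym {G : Type*} [AddCommGroup G] [DecidableEq G] (l : List G) (c : G) :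
    ∀ z ∈ {c} + cube l, (c + c + l.sum) - z ∈ {c} + cube l := by
  intro z hz
  obtain ⟨c', hc', q, hq, rfl⟩ := Finset.mem_add.1 hz
  rw [Finset.mem_singleton] at hc'
  subst hc'
  exact Finset.mem_add.2 ⟨c', Finset.mem_singleton_self _, l.sum - q, cube_symm l q hq, by abel⟩

/-- subsets of `A` do not contain proper cubes of dimension `k` -/
theorem not_hasCube {A : Set ℕ} {g k x : ℕ} (hg : ∀ n ≤ 2 * x, rep A n ≤ g) (hk : g < 2 ^ k)
    {T : Finset ℤ} (hT : ∀ z ∈ T, ∃ a ∈ A, a ≤ x ∧ (a : ℤ) = z) : ¬ HasCube k T := by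
  rintro ⟨l, c, -, hcard, hsub⟩
  have h1 := card_le_rep (A := {a | a ∈ A ∧ a ≤ x}) (P := {c} + cube l) (n := c + c + l.sum)
    (fun z hz => by
      obtain ⟨a, ha, hax, haz⟩ := hT z (hsub hz)
      exact ⟨a, ⟨ha, hax⟩, haz⟩) (cube_sym l c)
    ((Finset.singleton_nonempty c).add (cube_nonempty l))
  rw [card_singleton_add, hcard] at h1
  have h2 := rep_trunc hg (c + c + l.sum).toNat
  omega

/-- sets of pairs of elements of `A` do not contain proper cubes of dimension `2k` -/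
theorem not_hasCube_pair {A : Set ℕ} {g k x : ℕ} (hg : ∀ n ≤ 2 * x, rep A n ≤ g)
    (hk : g < 2 ^ k) {T : Finset (ℤ × ℤ)}
    (hT : ∀ z ∈ T, (∃ a ∈ A, a ≤ x ∧ (a : ℤ) = z.1) ∧ ∃ a ∈ A, a ≤ x ∧ (a : ℤ) = z.2) :
    ¬ HasCube (2 * k) T := by
  rintro ⟨l, c, -, hcard, hsub⟩
  set Q := {c} + cube l with hQ
  have hQne : Q.Nonempty := (Finset.singleton_nonempty c).add (cube_nonempty l)
  have hQcard : Q.card = 2 ^ (2 * k) := by rw [hQ, card_singleton_add, hcard]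
  have h1 : Q ⊆ Q.image Prod.fst ×ˢ Q.image Prod.snd := by
    intro z hz
    rw [Finset.mem_product]
    exact ⟨Finset.mem_image_of_mem _ hz, Finset.mem_image_of_mem _ hz⟩
  have h2 := Finset.card_le_card h1
  rw [hQcard, Finset.card_product] at h2
  have hfst : (Q.image Prod.fst).card ≤ g := by
    have := card_le_rep (A := {a | a ∈ A ∧ a ≤ x}) (P := Q.image Prod.fst)
      (n := (c + c + l.sum).1) (fun z hz => by
        obtain ⟨w, hw, rfl⟩ := Finset.mem_image.1 hz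
        obtain ⟨a, ha, hax, haz⟩ := (hT w (hsub hw)).1
        exact ⟨a, ⟨ha, hax⟩, haz⟩) (fun z hz => by
        obtain ⟨w, hw, rfl⟩ := Finset.mem_image.1 hz
        exact Finset.mem_image.2 ⟨_, cube_sym l c w hw, rfl⟩) (hQne.image _)
    exact this.trans (rep_trunc hg _)
  have hsnd : (Q.image Prod.snd).card ≤ g := by
    have := card_le_rep (A := {a | a ∈ A ∧ a ≤ x}) (P := Q.image Prod.snd)
      (n := (c + c + l.sum).2) (fun z hz => by
        obtain ⟨w, hw, rfl⟩ := Finset.mem_image.1 hz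
        obtain ⟨a, ha, hax, haz⟩ := (hT w (hsub hw)).2
        exact ⟨a, ⟨ha, hax⟩, haz⟩) (fun z hz => by
        obtain ⟨w, hw, rfl⟩ := Finset.mem_image.1 hz
        exact Finset.mem_image.2 ⟨_, cube_sym l c w hw, rfl⟩) (hQne.image _)
    exact this.trans (rep_trunc hg _)
  have h3 : 2 ^ (2 * k) ≤ g * g := h2.trans (Nat.mul_le_mul hfst hsnd)
  have h4 : g * g < 2 ^ k * 2 ^ k := Nat.mul_lt_mul'' hk hk
  have h5 : (2 : ℕ) ^ (2 * k) = 2 ^ k * 2 ^ k := by rw [two_mul, pow_add]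
  omega

/-- the passage from the threshold form to a power saving -/
theorem real_form {D s N t : ℕ} (hD : 1 ≤ D) (hs : 1 ≤ s) (ht : t ≤ N)
    (h : ∀ μ, 1 ≤ μ → N ≤ μ * t → N < (D * (s * μ)) ^ D) :
    (t : ℝ) ≤ 2 * D * s * (N : ℝ) ^ (1 - 1 / (D : ℝ)) := by
  rcases Nat.eq_zero_or_pos t with h0 | h0
  · rw [h0]
    simp only [Nat.cast_zero]
    positivity
  have hNpos : 0 < N := by omega
  have hNr : (0 : ℝ) < N := by exact_mod_cast hNpos
  have htr : (0 : ℝ) < t := by exact_mod_cast h0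
  have hDr : (0 : ℝ) < D := by exact_mod_cast hD
  have hμ : N ≤ (N / t + 1) * t := by
    have := Nat.lt_div_mul_add (a := N) h0
    rw [add_mul, one_mul]
    omega
  have h1 := h (N / t + 1) (Nat.le_add_left 1 _) hμ
  have h2 : ((N / t + 1 : ℕ) : ℝ) ≤ 2 * N / t := by
    have h3 : ((N / t : ℕ) : ℝ) ≤ (N : ℝ) / t := Nat.cast_div_le
    have h4 : (1 : ℝ) ≤ (N : ℝ) / t := by
      rw [le_div_iff₀ htr, one_mul]
      exact_mod_cast ht
    push_cast
    have h5 : 2 * (N : ℝ) / t = N / t + N / t := by ring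
    rw [h5]
    exact add_le_add h3 h4
  have h6 : (N : ℝ) < ((D : ℝ) * (s * ((N / t + 1 : ℕ) : ℝ))) ^ D := by
    exact_mod_cast h1
  have h7 : (N : ℝ) ^ (1 / (D : ℝ)) ≤ (D : ℝ) * (s * ((N / t + 1 : ℕ) : ℝ)) := by
    have h8 : (N : ℝ) ^ (1 / (D : ℝ)) ≤
        (((D : ℝ) * (s * ((N / t + 1 : ℕ) : ℝ))) ^ D) ^ (1 / (D : ℝ)) :=
      Real.rpow_le_rpow hNr.le h6.le (by positivity)
    rwa [← Real.rpow_natCast, ← Real.rpow_mul (by positivity), mul_one_div_cancel hDr.ne',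
      Real.rpow_one] at h8
  have h9 : (N : ℝ) ^ (1 / (D : ℝ)) ≤ 2 * D * s * N / t := by
    calc (N : ℝ) ^ (1 / (D : ℝ)) ≤ (D : ℝ) * (s * ((N / t + 1 : ℕ) : ℝ)) := h7
      _ ≤ (D : ℝ) * (s * (2 * N / t)) := by gcongr
      _ = 2 * D * s * N / t := by ring
  rw [le_div_iff₀ htr] at h9
  have h10 : (N : ℝ) ^ (1 - 1 / (D : ℝ)) = N / (N : ℝ) ^ (1 / (D : ℝ)) := by
    rw [Real.rpow_sub hNr, Real.rpow_one]
  rw [h10, mul_div_assoc', le_div_iff₀ (by positivity)]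
  calc (t : ℝ) * (N : ℝ) ^ (1 / (D : ℝ)) = (N : ℝ) ^ (1 / (D : ℝ)) * t := by ring
    _ ≤ 2 * D * s * N := h9

/-- **Sets of low complexity contain few elements of `A`, and easily computed sets of pairs
contain few pairs of elements of `A`.** -/
theorem lowComplexity (g : ℕ) : ∃ c C : ℝ, 0 < c ∧ ∀ (A : Set ℕ) (x : ℕ),
    (∀ n ≤ 2 * x, rep A n ≤ g) →
    (∀ (s : ℕ) (S : ℕ → Finset ℤ), IsCircuit s S → ∀ i < s, ∀ T ⊆ S i,
      (∀ z ∈ T, ∃ a ∈ A, a ≤ x ∧ (a : ℤ) = z) →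
        (T.card : ℝ) ≤ C * s * ((S i).card : ℝ) ^ (1 - c)) ∧
    (∀ (s : ℕ) (S : ℕ → Finset (ℤ × ℤ)), IsCircuit s S → ∀ i < s, ∀ T ⊆ S i,
      (∀ z ∈ T, (∃ a ∈ A, a ≤ x ∧ (a : ℤ) = z.1) ∧ ∃ a ∈ A, a ≤ x ∧ (a : ℤ) = z.2) →
        (T.card : ℝ) ≤ C * s * ((S i).card : ℝ) ^ (1 - c)) := by
  obtain ⟨k, hk⟩ : ∃ k, g < 2 ^ k := ⟨g, Nat.lt_two_pow_self⟩
  obtain ⟨D1, hD1, h1⟩ := exists_rcl (G := ℤ) k
  obtain ⟨D2, hD2, h2⟩ := exists_rcl (G := ℤ × ℤ) (2 * k)
  have hD1r : (1 : ℝ) ≤ D1 := by exact_mod_cast hD1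
  have hD2r : (1 : ℝ) ≤ D2 := by exact_mod_cast hD2
  refine ⟨1 / ((D1 : ℝ) + D2), 2 * ((D1 : ℝ) + D2), by positivity, ?_⟩
  -- comparison of exponents and constants
  have hcomp : ∀ (D : ℕ) (s N : ℕ), 1 ≤ D → (D : ℝ) ≤ (D1 : ℝ) + D2 → 0 < N →
      2 * (D : ℝ) * s * (N : ℝ) ^ (1 - 1 / (D : ℝ)) ≤
        2 * ((D1 : ℝ) + D2) * s * (N : ℝ) ^ (1 - 1 / ((D1 : ℝ) + D2)) := by
    intro D s N hD hle hN
    have hN1 : (1 : ℝ) ≤ N := by exact_mod_cast hN
    have hDr : (0 : ℝ) < D := by exact_mod_cast hD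
    have h3 : (N : ℝ) ^ (1 - 1 / (D : ℝ)) ≤ (N : ℝ) ^ (1 - 1 / ((D1 : ℝ) + D2)) := by
      apply Real.rpow_le_rpow_of_exponent_le hN1
      have : 1 / ((D1 : ℝ) + D2) ≤ 1 / (D : ℝ) := one_div_le_one_div_of_le hDr hle
      linarith
    have h4 : 2 * (D : ℝ) * s ≤ 2 * ((D1 : ℝ) + D2) * s := by gcongr
    exact mul_le_mul h4 h3 (by positivity) (by positivity)
  intro A x hg
  refine ⟨?_, ?_⟩
  · intro s S hS i hi T hT hTA
    obtain ⟨d, hd⟩ := hS.exists_fits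
    rcases T.eq_empty_or_nonempty with h0 | hne
    · rw [h0]
      simp only [Finset.card_empty, Nat.cast_zero]
      positivity
    have hNpos : 0 < (S i).card := Finset.card_pos.2 (hne.mono hT)
    refine (real_form hD1 (by omega) (Finset.card_le_card hT) ?_).trans
      (hcomp D1 s _ hD1 (by linarith) hNpos)
    intro μ hμ hST
    by_contra hcon
    push Not at hcon
    exact not_hasCube hg hk hTA (h1 s μ d S (by omega) hμ hd i hi T hT hST hcon)
  · intro s S hS i hi T hT hTA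
    obtain ⟨d, hd⟩ := hS.exists_fits
    rcases T.eq_empty_or_nonempty with h0 | hne
    · rw [h0]
      simp only [Finset.card_empty, Nat.cast_zero]
      positivity
    have hNpos : 0 < (S i).card := Finset.card_pos.2 (hne.mono hT)
    refine (real_form hD2 (by omega) (Finset.card_le_card hT) ?_).trans
      (hcomp D2 s _ hD2 (by linarith) hNpos)
    intro μ hμ hST
    by_contra hcon
    push Not at hcon
    exact not_hasCube_pair hg hk hTA (h2 s μ d S (by omega) hμ hd i hi T hT hST hcon)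

/-- **Rules.** If the graph of the rule `n ↦ f n` on `[0, x)` is computed by `s` unions and
sumsets in `ℤ × ℤ`, then `n = f n + (n - f n)` is a representation with both summands in `A`
for at most `C s x^(1-c)` of the `n < x`. -/
theorem rules (g : ℕ) : ∃ c C : ℝ, 0 < c ∧ ∀ (A : Set ℕ) (x : ℕ),
    (∀ n ≤ 2 * x, rep A n ≤ g) → ∀ (f : ℕ → ℤ) (s : ℕ) (S : ℕ → Finset (ℤ × ℤ)),
      IsCircuit s S → ∀ i < s, S i = (Finset.range x).image (fun n : ℕ => ((n : ℤ), f n)) →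
        ∀ W ⊆ Finset.range x, (∀ n ∈ W, ∃ a ∈ A, ∃ b ∈ A, (a : ℤ) = f n ∧ a + b = n) →
          (W.card : ℝ) ≤ C * s * (x : ℝ) ^ (1 - c) := by
  obtain ⟨c, C, hc, h⟩ := lowComplexity g
  refine ⟨c, C, hc, ?_⟩
  intro A x hg f s S hS i hi hSi W hW hWA
  have h1 := (h A x hg).2 s _ (CC.isCircuit_map hS
    (AddMonoidHom.prod (AddMonoidHom.snd ℤ ℤ)
      (AddMonoidHom.fst ℤ ℤ - AddMonoidHom.snd ℤ ℤ))) i hi
    (W.image fun n => (f n, (n : ℤ) - f n)) ?_ ?_
  · have hinj : Set.InjOn (fun n : ℕ => (f n, (n : ℤ) - f n)) (W : Set ℕ) := by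
      intro n _ m _ hnm
      simp only [Prod.mk.injEq] at hnm
      omega
    rw [Finset.card_image_of_injOn hinj] at h1
    have hcard : ((S i).image ((AddMonoidHom.prod (AddMonoidHom.snd ℤ ℤ)
        (AddMonoidHom.fst ℤ ℤ - AddMonoidHom.snd ℤ ℤ)) : ℤ × ℤ →+ ℤ × ℤ)).card = x := by
      rw [hSi, Finset.image_image, Finset.card_image_of_injective, Finset.card_range]
      intro n m hnm
      simp only [Function.comp, AddMonoidHom.prod_apply, AddMonoidHom.coe_snd,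
        AddMonoidHom.sub_apply, AddMonoidHom.coe_fst, Prod.mk.injEq] at hnm
      omega
    rw [hcard] at h1
    exact h1
  · intro z hz
    obtain ⟨n, hn, rfl⟩ := Finset.mem_image.1 hz
    rw [Finset.mem_image]
    refine ⟨((n : ℤ), f n), ?_, ?_⟩
    · rw [hSi]
      exact Finset.mem_image_of_mem _ (hW hn)
    · simp
  · intro z hz
    obtain ⟨n, hn, rfl⟩ := Finset.mem_image.1 hz
    obtain ⟨a, ha, b, hb, haf, hab⟩ := hWA n hn
    have hnx : n < x := Finset.mem_range.1 (hW hn)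
    refine ⟨⟨a, ha, by omega, haf⟩, ⟨b, hb, by omega, ?_⟩⟩
    simp only
    omega

end Pool.Agent.Helper29.RC
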