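import Pool.Agent.Helper29.RC.RclE
import Pool.Agent.Helper29.RC.Main

/-!
The corollaries of the relative cube lemma with explicit constants.
-/

open scoped Pointwise

namespace Pool.Agent.Helper29.RC

open Pool.Agent.Helper82.CF

/-- the passage from the threshold form to a power saving, with explicit constants -/
theorem real_formE {C E s N t : ℕ} (hE : 1 ≤ E) (ht : t ≤ N)
    (h : ∀ μ, 1 ≤ μ → N ≤ μ * t → N < (C * (s * μ)) ^ E) :
    (t : ℝ) ≤ 2 * C * s * (N : ℝ) ^ (1 - 1 / (E : ℝ)) := by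
  rcases Nat.eq_zero_or_pos t with h0 | h0
  · rw [h0]
    simp only [Nat.cast_zero]
    positivity
  have hNpos : 0 < N := by omega
  have hNr : (0 : ℝ) < N := by exact_mod_cast hNpos
  have htr : (0 : ℝ) < t := by exact_mod_cast h0
  have hEr : (0 : ℝ) < E := by exact_mod_cast hE
  have hμ : N ≤ (N / t + 1) * t := by
    have := Nat.lt_div_mul_add (a := N) h0
    rw [add_mul, one_mul]
    omega
  have h1 := h (N / t + 1) (Nat.le_add_left 1 _) hμ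
  have h2 : ((N / t + 1 : ℕ) : ℝ) ≤ 2 * N / t := by
    have h3 : ((N / t : ℕ) : ℝ) ≤ (N : ℝ) / t := Nat.cast_div_le
    have h4 : (1 : ℝ) ≤ (N : ℝ) / t := by
      rw [le_div_iff₀ htr, one_mul]
      exact_mod_cast ht
    push_cast
    have h5 : 2 * (N : ℝ) / t = N / t + N / t := by ring
    rw [h5]
    exact add_le_add h3 h4
  have h6 : (N : ℝ) < ((C : ℝ) * (s * ((N / t + 1 : ℕ) : ℝ))) ^ E := by
    exact_mod_cast h1
  have h7 : (N : ℝ) ^ (1 / (E : ℝ)) ≤ (C : ℝ) * (s * ((N / t + 1 : ℕ) : ℝ)) := by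
    have h8 : (N : ℝ) ^ (1 / (E : ℝ)) ≤
        (((C : ℝ) * (s * ((N / t + 1 : ℕ) : ℝ))) ^ E) ^ (1 / (E : ℝ)) :=
      Real.rpow_le_rpow hNr.le h6.le (by positivity)
    rwa [← Real.rpow_natCast, ← Real.rpow_mul (by positivity), mul_one_div_cancel hEr.ne',
      Real.rpow_one] at h8
  have h9 : (N : ℝ) ^ (1 / (E : ℝ)) ≤ 2 * C * s * N / t := by
    calc (N : ℝ) ^ (1 / (E : ℝ)) ≤ (C : ℝ) * (s * ((N / t + 1 : ℕ) : ℝ)) := h7
      _ ≤ (C : ℝ) * (s * (2 * N / t)) := by gcongr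
      _ = 2 * C * s * N / t := by ring
  rw [le_div_iff₀ htr] at h9
  have h10 : (N : ℝ) ^ (1 - 1 / (E : ℝ)) = N / (N : ℝ) ^ (1 / (E : ℝ)) := by
    rw [Real.rpow_sub hNr, Real.rpow_one]
  rw [h10, mul_div_assoc', le_div_iff₀ (by positivity)]
  calc (t : ℝ) * (N : ℝ) ^ (1 / (E : ℝ)) = (N : ℝ) ^ (1 / (E : ℝ)) * t := by ring
    _ ≤ 2 * C * s * N := h9

/-- comparison of the explicit constants -/
theorem const_le {k K s N : ℕ} (hK : K ≤ 2 * k + 2) (hN : 0 < N) :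
    2 * ((4 * 3 ^ K : ℕ) : ℝ) * s * (N : ℝ) ^ (1 - 1 / ((2 ^ (2 * K ^ 2 + 9 * K) : ℕ) : ℝ)) ≤
      8 * 9 ^ (k + 1) * s * (N : ℝ) ^ (1 - 1 / (2 : ℝ) ^ (8 * (k + 3) ^ 2)) := by
  have hN1 : (1 : ℝ) ≤ N := by exact_mod_cast hN
  have h1 : 2 * ((4 * 3 ^ K : ℕ) : ℝ) ≤ 8 * 9 ^ (k + 1) := by
    have h2 : (3 : ℝ) ^ K ≤ 9 ^ (k + 1) := by
      calc (3 : ℝ) ^ K ≤ 3 ^ (2 * (k + 1)) :=
            pow_le_pow_right₀ (by norm_num) (by omega)
        _ = 9 ^ (k + 1) := by rw [pow_mul]; norm_num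
    push_cast
    linarith
  have h3 : 2 * K ^ 2 + 9 * K ≤ 8 * (k + 3) ^ 2 := by
    calc 2 * K ^ 2 + 9 * K ≤ 2 * (2 * k + 2) ^ 2 + 9 * (2 * k + 2) := by gcongr
      _ ≤ 8 * (k + 3) ^ 2 := by nlinarith
  have h4 : (N : ℝ) ^ (1 - 1 / ((2 ^ (2 * K ^ 2 + 9 * K) : ℕ) : ℝ)) ≤
      (N : ℝ) ^ (1 - 1 / (2 : ℝ) ^ (8 * (k + 3) ^ 2)) := by
    apply Real.rpow_le_rpow_of_exponent_le hN1
    have h5 : ((2 ^ (2 * K ^ 2 + 9 * K) : ℕ) : ℝ) ≤ (2 : ℝ) ^ (8 * (k + 3) ^ 2) := by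
      push_cast
      exact pow_le_pow_right₀ (by norm_num) h3
    have h6 : 1 / (2 : ℝ) ^ (8 * (k + 3) ^ 2) ≤ 1 / ((2 ^ (2 * K ^ 2 + 9 * K) : ℕ) : ℝ) :=
      one_div_le_one_div_of_le (by positivity) h5
    linarith
  gcongr

/-- If `r_A(n) < 2^(k+1)` for `n ≤ 2x` and `c = 2^(-8(k+3)^2)`, a set computed by `s` unions and
sumsets contains at most `8·9^(k+1) s |S|^(1-c)` elements of `A` up to `x`, and at most
`8·9^(k+1) s |T|^(1-c)` numbers are of the form `a + b` with `(a, b) ∈ T`, `a, b ∈ A` up to `x`,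
when `T ⊆ ℤ × ℤ` is computed by `s` unions and sumsets. -/
theorem robust_explicit (k : ℕ) (A : Set ℕ) (x : ℕ) (hg : ∀ n ≤ 2 * x, rep A n < 2 ^ (k + 1)) :
    (∀ (s : ℕ) (S : ℕ → Finset ℤ), IsCircuit s S → ∀ i < s,
      (({a : ℕ | a ∈ A ∧ a ≤ x ∧ (a : ℤ) ∈ S i} : Set ℕ).ncard : ℝ) ≤
        8 * 9 ^ (k + 1) * s * ((S i).card : ℝ) ^ (1 - 1 / (2 : ℝ) ^ (8 * (k + 3) ^ 2))) ∧
    (∀ (s : ℕ) (T : ℕ → Finset (ℤ × ℤ)), IsCircuit s T → ∀ i < s,
      (({n : ℕ | ∃ a ∈ A, ∃ b ∈ A, a ≤ x ∧ b ≤ x ∧ a + b = n ∧ ((a : ℤ), (b : ℤ)) ∈ T i} :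
        Set ℕ).ncard : ℝ) ≤
        8 * 9 ^ (k + 1) * s * ((T i).card : ℝ) ^ (1 - 1 / (2 : ℝ) ^ (8 * (k + 3) ^ 2))) := by
  classical
  have hg' : ∀ n ≤ 2 * x, rep A n ≤ 2 ^ (k + 1) - 1 := fun n hn => by
    have := hg n hn
    omega
  have hgk : 2 ^ (k + 1) - 1 < 2 ^ (k + 1) := by
    have : 1 ≤ 2 ^ (k + 1) := Nat.one_le_two_pow
    omega
  refine ⟨?_, ?_⟩
  · intro s S hS i hi
    obtain ⟨d, hd⟩ := hS.exists_fits
    set Pr : Set ℕ := {a : ℕ | a ∈ A ∧ a ≤ x ∧ (a : ℤ) ∈ S i} with hPr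
    have hfin : Pr.Finite := by
      refine ((Finset.range (x + 1)).finite_toSet).subset ?_
      rintro a ⟨-, h3, -⟩
      rw [Finset.mem_coe, Finset.mem_range]
      omega
    set U : Finset ℤ := hfin.toFinset.image (fun a : ℕ => (a : ℤ)) with hU
    have hcard : U.card = Pr.ncard := by
      rw [hU, Finset.card_image_of_injective _ Nat.cast_injective,
        Set.ncard_eq_toFinset_card _ hfin]
    have hsub : U ⊆ S i := by
      intro z hz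
      obtain ⟨a, ha, rfl⟩ := Finset.mem_image.1 hz
      exact ((Set.Finite.mem_toFinset hfin).1 ha).2.2
    have hUA : ∀ z ∈ U, ∃ a ∈ A, a ≤ x ∧ (a : ℤ) = z := by
      intro z hz
      obtain ⟨a, ha, rfl⟩ := Finset.mem_image.1 hz
      obtain ⟨a1, a2, -⟩ := (Set.Finite.mem_toFinset hfin).1 ha
      exact ⟨a, a1, a2, rfl⟩
    rw [← hcard]
    rcases Nat.eq_zero_or_pos (S i).card with h0 | h0
    · have h4 := Finset.card_le_card hsub
      have h5 : U.card = 0 := by omega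
      rw [h5]
      simp only [Nat.cast_zero]
      positivity
    · refine (real_formE (C := 4 * 3 ^ (k + 1)) (E := 2 ^ (2 * (k + 1) ^ 2 + 9 * (k + 1)))
        (s := s) Nat.one_le_two_pow (Finset.card_le_card hsub) ?_).trans
        (const_le (k := k) (K := k + 1) (by omega) h0)
      intro μ hμ hST
      by_contra hcon
      push Not at hcon
      exact not_hasCube hg' hgk hUA (rclE (k + 1) s μ d S (by omega) hμ hd i hi U hsub hST hcon)
  · intro s T hT i hi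
    obtain ⟨d, hd⟩ := hT.exists_fits
    set Pr : Set (ℕ × ℕ) := {p : ℕ × ℕ | p.1 ∈ A ∧ p.2 ∈ A ∧ p.1 ≤ x ∧ p.2 ≤ x ∧
      ((p.1 : ℤ), (p.2 : ℤ)) ∈ T i} with hPr
    have hfin : Pr.Finite := by
      refine ((Finset.range (x + 1) ×ˢ Finset.range (x + 1)).finite_toSet).subset ?_
      rintro p ⟨-, -, h3, h4, -⟩
      rw [Finset.mem_coe, Finset.mem_product, Finset.mem_range, Finset.mem_range]
      omega
    have hinj : Function.Injective (fun p : ℕ × ℕ => ((p.1 : ℤ), (p.2 : ℤ))) := by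
      intro p q hpq
      simp only [Prod.mk.injEq] at hpq
      exact Prod.ext (by omega) (by omega)
    set U : Finset (ℤ × ℤ) := hfin.toFinset.image (fun p : ℕ × ℕ => ((p.1 : ℤ), (p.2 : ℤ)))
      with hU
    have hcard : U.card = Pr.ncard := by
      rw [hU, Finset.card_image_of_injective _ hinj, Set.ncard_eq_toFinset_card _ hfin]
    have hsub : U ⊆ T i := by
      intro z hz
      obtain ⟨p, hp, rfl⟩ := Finset.mem_image.1 hz
      exact ((Set.Finite.mem_toFinset hfin).1 hp).2.2.2.2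
    have hUA : ∀ z ∈ U, (∃ a ∈ A, a ≤ x ∧ (a : ℤ) = z.1) ∧ ∃ a ∈ A, a ≤ x ∧ (a : ℤ) = z.2 := by
      intro z hz
      obtain ⟨p, hp, rfl⟩ := Finset.mem_image.1 hz
      obtain ⟨a1, a2, a3, a4, -⟩ := (Set.Finite.mem_toFinset hfin).1 hp
      exact ⟨⟨p.1, a1, a3, rfl⟩, ⟨p.2, a2, a4, rfl⟩⟩
    have hle : (U.card : ℝ) ≤
        8 * 9 ^ (k + 1) * s * ((T i).card : ℝ) ^ (1 - 1 / (2 : ℝ) ^ (8 * (k + 3) ^ 2)) := by
      rcases Nat.eq_zero_or_pos (T i).card with h0 | h0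
      · have h4 := Finset.card_le_card hsub
        have h5 : U.card = 0 := by omega
        rw [h5]
        simp only [Nat.cast_zero]
        positivity
      · refine (real_formE (C := 4 * 3 ^ (2 * (k + 1)))
          (E := 2 ^ (2 * (2 * (k + 1)) ^ 2 + 9 * (2 * (k + 1))))
          (s := s) Nat.one_le_two_pow (Finset.card_le_card hsub) ?_).trans
          (const_le (k := k) (K := 2 * (k + 1)) (by omega) h0)
        intro μ hμ hST
        by_contra hcon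
        push Not at hcon
        exact not_hasCube_pair hg' hgk hUA
          (rclE (2 * (k + 1)) s μ d T (by omega) hμ hd i hi U hsub hST hcon)
    refine le_trans ?_ hle
    have hsub : {n : ℕ | ∃ a ∈ A, ∃ b ∈ A, a ≤ x ∧ b ≤ x ∧ a + b = n ∧
        ((a : ℤ), (b : ℤ)) ∈ T i} ⊆ (fun p : ℕ × ℕ => p.1 + p.2) '' Pr := by
      rintro n ⟨a, ha, b, hb, hax, hbx, hab, hT'⟩
      exact ⟨(a, b), ⟨ha, hb, hax, hbx, hT'⟩, hab⟩
    rw [hcard]
    exact_mod_cast (Set.ncard_le_ncard hsub (hfin.image _)).trans (Set.ncard_image_le hfin)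

end Pool.Agent.Helper29.RC
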