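import Pool.Agent.Helper82.CF.Cir

/-!
Cube building: if `T + U ⊆ Y` with `|Y| ≤ K |T|` and `U` is large, then `T` contains a proper
Hilbert cube of dimension `k`.
-/

open scoped Pointwise Combinatorics.Additive

namespace Pool.Agent.Helper29.RC

open Pool.Agent.Helper82.CF

variable {G : Type*} [AddCommGroup G] [DecidableEq G]

/-- `T` contains a proper Hilbert cube of dimension `k` -/
def HasCube (k : ℕ) (T : Finset G) : Prop :=
  ∃ (l : List G) (t : G), l.length = k ∧ (cube l).card = 2 ^ k ∧ {t} + cube l ⊆ T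

theorem HasCube.mono {k : ℕ} {T T' : Finset G} (h : HasCube k T) (hT : T ⊆ T') :
    HasCube k T' := by
  obtain ⟨l, t, h1, h2, h3⟩ := h
  exact ⟨l, t, h1, h2, h3.trans hT⟩

theorem HasCube.nonempty {k : ℕ} {T : Finset G} (h : HasCube k T) : T.Nonempty := by
  obtain ⟨l, t, -, -, h3⟩ := h
  exact ((Finset.singleton_nonempty t).add (cube_nonempty l)).mono h3

theorem hasCube_zero {T : Finset G} (h : T.Nonempty) : HasCube 0 T := by
  obtain ⟨t, ht⟩ := h
  refine ⟨[], t, rfl, by rw [cube_nil]; simp, ?_⟩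
  rw [cube_nil, Finset.singleton_zero, add_zero]
  exact Finset.singleton_subset_iff.2 ht

/-- the energy is at most the sum of the sizes of the intersections with translates -/
theorem energy_le (T U : Finset G) :
    E[T, U] ≤ ∑ w ∈ U ×ˢ U, (T.filter fun t => t + (w.1 - w.2) ∈ T).card := by
  classical
  unfold Finset.addEnergy
  have hmaps : ∀ x ∈ (((T ×ˢ T) ×ˢ U ×ˢ U).filter fun x => x.1.1 + x.2.1 = x.1.2 + x.2.2),
      x.2 ∈ U ×ˢ U := by
    intro x hx
    rw [Finset.mem_filter, Finset.mem_product] at hx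
    exact hx.1.2
  rw [Finset.card_eq_sum_card_fiberwise (f := Prod.snd) (t := U ×ˢ U)
    (fun x hx => by exact_mod_cast hmaps x (by exact_mod_cast hx))]
  apply Finset.sum_le_sum
  intro w hw
  refine Finset.card_le_card_of_injOn (fun x => x.1.1) ?_ ?_
  · intro x hx
    rw [Finset.mem_coe, Finset.mem_filter, Finset.mem_filter, Finset.mem_product,
      Finset.mem_product] at hx
    obtain ⟨⟨⟨⟨h1, h2⟩, h3⟩, h4⟩, h5⟩ := hx
    rw [Finset.mem_coe, Finset.mem_filter]
    refine ⟨h1, ?_⟩
    rw [← h5]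
    have : x.1.1 + (x.2.1 - x.2.2) = x.1.2 := by
      rw [← add_sub_assoc, h4, add_sub_cancel_right]
    rw [this]
    exact h2
  · intro x hx y hy hxy
    rw [Finset.mem_coe, Finset.mem_filter, Finset.mem_filter] at hx hy
    obtain ⟨⟨-, h4⟩, h5⟩ := hx
    obtain ⟨⟨-, h4'⟩, h5'⟩ := hy
    have e2 : x.2 = y.2 := by rw [h5, h5']
    simp only at hxy
    have e1 : x.1.2 = y.1.2 := by
      rw [hxy, e2] at h4
      rw [h4'] at h4
      exact (add_right_cancel h4).symm
    exact Prod.ext (Prod.ext hxy e1) e2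

/-- one step: a popular difference outside the forbidden set -/
theorem exists_diff {T U Y R : Finset G} {K : ℕ} (hT : T.Nonempty) (hUne : U.Nonempty)
    (hTU : T + U ⊆ Y) (hY : Y.card ≤ K * T.card) (hU : 2 * K * R.card ≤ U.card) :
    ∃ d, d ∉ R ∧ T.card ≤ 2 * K * (T.filter fun t => t + d ∈ T).card := by
  classical
  by_contra hcon
  push Not at hcon
  have hTpos : 0 < T.card := Finset.card_pos.2 hT
  have hUpos : 0 < U.card := Finset.card_pos.2 hUne
  have hYpos : 0 < Y.card := Finset.card_pos.2 ((hT.add hUne).mono hTU)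
  have hKpos : 0 < K := by
    rcases Nat.eq_zero_or_pos K with h0 | h0
    · rw [h0, zero_mul] at hY
      omega
    · exact h0
  -- lower bound
  have hlow : 2 * (T.card * U.card ^ 2) ≤ 2 * K * E[T, U] := by
    have h1 := Finset.le_card_add_mul_addEnergy T U
    have h2 : T.card ^ 2 * U.card ^ 2 ≤ K * T.card * E[T, U] :=
      h1.trans (Nat.mul_le_mul_right _ ((Finset.card_le_card hTU).trans hY))
    have h3 : T.card * (T.card * U.card ^ 2) ≤ T.card * (K * E[T, U]) := by
      calc T.card * (T.card * U.card ^ 2) = T.card ^ 2 * U.card ^ 2 := by ring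
        _ ≤ K * T.card * E[T, U] := h2
        _ = T.card * (K * E[T, U]) := by ring
    have h4 := Nat.le_of_mul_le_mul_left h3 hTpos
    calc 2 * (T.card * U.card ^ 2) ≤ 2 * (K * E[T, U]) := Nat.mul_le_mul_left _ h4
      _ = 2 * K * E[T, U] := by ring
  -- upper bound
  set g : G × G → ℕ := fun w => (T.filter fun t => t + (w.1 - w.2) ∈ T).card with hg
  set Bd := (U ×ˢ U).filter fun w => w.1 - w.2 ∈ R with hBd
  set Gd := (U ×ˢ U).filter fun w => ¬ (w.1 - w.2 ∈ R) with hGd
  have hsplit : ∑ w ∈ U ×ˢ U, g w = ∑ w ∈ Bd, g w + ∑ w ∈ Gd, g w :=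
    (Finset.sum_filter_add_sum_filter_not _ _ _).symm
  have hBdcard : Bd.card ≤ U.card * R.card := by
    rw [← Finset.card_product]
    refine Finset.card_le_card_of_injOn (fun w => (w.2, w.1 - w.2)) ?_ ?_
    · intro w hw
      rw [Finset.mem_coe, hBd, Finset.mem_filter, Finset.mem_product] at hw
      rw [Finset.mem_coe, Finset.mem_product]
      exact ⟨hw.1.2, hw.2⟩
    · intro w _ w' _ h
      simp only [Prod.mk.injEq] at h
      obtain ⟨h1, h2⟩ := h
      rw [h1] at h2
      exact Prod.ext (sub_left_injective h2) h1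
  have hBdsum : 2 * K * ∑ w ∈ Bd, g w ≤ U.card ^ 2 * T.card := by
    have h1 : ∑ w ∈ Bd, g w ≤ Bd.card * T.card := by
      have := Finset.sum_le_card_nsmul Bd g T.card (fun w _ => Finset.card_filter_le _ _)
      rwa [smul_eq_mul] at this
    calc 2 * K * ∑ w ∈ Bd, g w ≤ 2 * K * (U.card * R.card * T.card) :=
          Nat.mul_le_mul_left _ (h1.trans (Nat.mul_le_mul_right _ hBdcard))
      _ = (2 * K * R.card) * (U.card * T.card) := by ring
      _ ≤ U.card * (U.card * T.card) := Nat.mul_le_mul_right _ hU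
      _ = U.card ^ 2 * T.card := by ring
  have hGdcard : Gd.card ≤ U.card ^ 2 := by
    refine (Finset.card_filter_le _ _).trans ?_
    rw [Finset.card_product]
    exact le_of_eq (by ring)
  have hGdsum : 2 * K * ∑ w ∈ Gd, g w + Gd.card ≤ Gd.card * T.card := by
    have h1 : ∀ w ∈ Gd, 2 * K * g w + 1 ≤ T.card := by
      intro w hw
      rw [hGd, Finset.mem_filter] at hw
      exact hcon _ hw.2
    have h2 := Finset.sum_le_card_nsmul Gd (fun w => 2 * K * g w + 1) T.card h1
    rw [smul_eq_mul, Finset.sum_add_distrib, ← Finset.mul_sum, Finset.sum_const, smul_eq_mul,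
      mul_one] at h2
    exact h2
  have hup : 2 * K * E[T, U] ≤ 2 * K * ∑ w ∈ Bd, g w + 2 * K * ∑ w ∈ Gd, g w := by
    rw [← mul_add, ← hsplit]
    exact Nat.mul_le_mul_left _ (energy_le T U)
  have hfin : Gd.card * T.card ≤ U.card ^ 2 * T.card := Nat.mul_le_mul_right _ hGdcard
  have hpos : 0 < U.card ^ 2 * T.card := by positivity
  rcases Nat.eq_zero_or_pos Gd.card with h0 | h0
  · rw [h0] at hGdsum
    have : T.card * U.card ^ 2 = U.card ^ 2 * T.card := by ring
    omega
  · have : T.card * U.card ^ 2 = U.card ^ 2 * T.card := by ring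
    omega

/-- **Cube building.** -/
theorem cube_build (k : ℕ) : ∀ (T U Y Q : Finset G) (K : ℕ), T.Nonempty → Q.Nonempty →
    T + U ⊆ Y → Y.card ≤ K * T.card → (2 * K) ^ (2 ^ k) * 3 ^ k * (Q - Q).card ≤ U.card →
    1 ≤ K →
    ∃ (l : List G) (t : G), l.length = k ∧ (Q + cube l).card = 2 ^ k * Q.card ∧
      {t} + cube l ⊆ T := by
  classical
  induction k with
  | zero =>
    intro T U Y Q K hT hQ _ _ _ _
    obtain ⟨t, ht⟩ := hT
    refine ⟨[], t, rfl, ?_, ?_⟩
    · rw [cube_nil, Finset.singleton_zero, add_zero]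
      ring
    · rw [cube_nil, Finset.singleton_zero, add_zero]
      exact Finset.singleton_subset_iff.2 ht
  | succ k ih =>
    intro T U Y Q K hT hQ hTU hY hU hK
    have hQQ : 0 < (Q - Q).card := Finset.card_pos.2 (hQ.sub hQ)
    have h2K : 1 ≤ 2 * K := by omega
    have hUne : U.Nonempty := by
      apply Finset.card_pos.1
      refine lt_of_lt_of_le ?_ hU
      positivity
    have hU1 : 2 * K * (Q - Q).card ≤ U.card := by
      refine le_trans ?_ hU
      apply Nat.mul_le_mul_right
      calc 2 * K = (2 * K) ^ 1 * 1 := by ring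
        _ ≤ (2 * K) ^ (2 ^ (k + 1)) * 3 ^ (k + 1) :=
          Nat.mul_le_mul (Nat.pow_le_pow_right h2K Nat.one_le_two_pow)
            (Nat.one_le_pow _ _ (by norm_num))
    obtain ⟨d, hd, hTd⟩ := exists_diff (R := Q - Q) hT hUne hTU hY hU1
    set T1 := T.filter fun t => t + d ∈ T with hT1
    have hT1T : T1 ⊆ T := Finset.filter_subset _ _
    have hT1ne : T1.Nonempty := by
      apply Finset.card_pos.1
      rcases Nat.eq_zero_or_pos T1.card with h0 | h0
      · rw [h0, mul_zero] at hTd
        have := Finset.card_pos.2 hT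
        omega
      · exact h0
    have hsub : (Q + {0, d}) - (Q + {0, d}) ⊆ ({0, d, -d} : Finset G) + (Q - Q) := by
      intro z hz
      obtain ⟨u, hu, v, hv, rfl⟩ := Finset.mem_sub.1 hz
      obtain ⟨q, hq, e, he, rfl⟩ := Finset.mem_add.1 hu
      obtain ⟨q', hq', e', he', rfl⟩ := Finset.mem_add.1 hv
      have hqq : q - q' ∈ Q - Q := Finset.sub_mem_sub hq hq'
      rw [Finset.mem_insert, Finset.mem_singleton] at he he'
      rcases he with rfl | rfl <;> rcases he' with rfl | rfl
      · exact Finset.mem_add.2 ⟨0, by simp, q - q', hqq, by abel⟩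
      · exact Finset.mem_add.2 ⟨-e', by simp, q - q', hqq, by abel⟩
      · exact Finset.mem_add.2 ⟨e, by simp, q - q', hqq, by abel⟩
      · exact Finset.mem_add.2 ⟨0, by simp, q - q', hqq, by abel⟩
    have hQ1card : ((Q + {0, d}) - (Q + {0, d})).card ≤ 3 * (Q - Q).card :=
      (Finset.card_le_card hsub).trans
        (Finset.card_add_le.trans (Nat.mul_le_mul_right _ Finset.card_le_three))
    have hQ1 : (Q + {0, d}).card = 2 * Q.card := by
      have e1 : Q + {0, d} = Q ∪ ({d} + Q) := by
        ext z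
        rw [Finset.mem_union, Finset.mem_add, Finset.mem_add]
        constructor
        · rintro ⟨q, hq, e, he, rfl⟩
          rw [Finset.mem_insert, Finset.mem_singleton] at he
          rcases he with rfl | rfl
          · left; rw [add_zero]; exact hq
          · right; exact ⟨e, Finset.mem_singleton_self _, q, hq, add_comm _ _⟩
        · rintro (h | ⟨e, he, q, hq, rfl⟩)
          · exact ⟨z, h, 0, by simp, add_zero z⟩
          · rw [Finset.mem_singleton] at he
            subst he
            exact ⟨q, hq, e, by simp, add_comm _ _⟩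
      have hdisj : Disjoint Q ({d} + Q) := by
        rw [Finset.disjoint_left]
        intro z hz hz'
        obtain ⟨e, he, q, hq, rfl⟩ := Finset.mem_add.1 hz'
        rw [Finset.mem_singleton] at he
        subst he
        apply hd
        rw [Finset.mem_sub]
        exact ⟨e + q, hz, q, hq, by abel⟩
      rw [e1, Finset.card_union_of_disjoint hdisj, card_singleton_add]
      ring
    have hYT1 : Y.card ≤ (2 * K ^ 2) * T1.card := by
      calc Y.card ≤ K * T.card := hY
        _ ≤ K * (2 * K * T1.card) := Nat.mul_le_mul_left _ hTd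
        _ = (2 * K ^ 2) * T1.card := by ring
    have hU2 : (2 * (2 * K ^ 2)) ^ (2 ^ k) * 3 ^ k * ((Q + {0, d}) - (Q + {0, d})).card
        ≤ U.card := by
      refine le_trans ?_ hU
      calc (2 * (2 * K ^ 2)) ^ (2 ^ k) * 3 ^ k * ((Q + {0, d}) - (Q + {0, d})).card
          ≤ (2 * (2 * K ^ 2)) ^ (2 ^ k) * 3 ^ k * (3 * (Q - Q).card) :=
            Nat.mul_le_mul_left _ hQ1card
        _ = ((2 * K) ^ 2) ^ (2 ^ k) * 3 ^ (k + 1) * (Q - Q).card := by
            rw [show 2 * (2 * K ^ 2) = (2 * K) ^ 2 by ring]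
            ring
        _ = (2 * K) ^ (2 ^ (k + 1)) * 3 ^ (k + 1) * (Q - Q).card := by
            rw [← pow_mul, show 2 * 2 ^ k = 2 ^ (k + 1) by ring]
    obtain ⟨l, t, hl, hcard, hlt⟩ := ih T1 U Y (Q + {0, d}) (2 * K ^ 2) hT1ne
      (hQ.add (by simp)) ((Finset.add_subset_add_right hT1T).trans hTU) hYT1 hU2
      (by have := Nat.one_le_pow 2 K hK; omega)
    refine ⟨d :: l, t, by rw [List.length_cons, hl], ?_, ?_⟩
    · rw [cube_cons, ← add_assoc, hcard, hQ1]
      ring
    · rw [cube_cons]
      intro z hz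
      obtain ⟨t', ht', w, hw, rfl⟩ := Finset.mem_add.1 hz
      rw [Finset.mem_singleton] at ht'
      subst ht'
      obtain ⟨e, he, c, hc, rfl⟩ := Finset.mem_add.1 hw
      have h1 : t' + c ∈ T1 := hlt (Finset.mem_add.2 ⟨t', Finset.mem_singleton_self _, c, hc, rfl⟩)
      rw [hT1, Finset.mem_filter] at h1
      rw [Finset.mem_insert, Finset.mem_singleton] at he
      rcases he with rfl | rfl
      · rw [zero_add]
        exact h1.1
      · rw [show t' + (e + c) = t' + c + e by abel]
        exact h1.2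

/-- the form used below: `Q = {0}` -/
theorem hasCube_of_add {k K : ℕ} {T U Y : Finset G} (hT : T.Nonempty) (hTU : T + U ⊆ Y)
    (hY : Y.card ≤ K * T.card) (hK : 1 ≤ K) (hU : (2 * K) ^ (2 ^ k) * 3 ^ k ≤ U.card) :
    HasCube k T := by
  obtain ⟨l, t, h1, h2, h3⟩ := cube_build k T U Y {0} K hT (Finset.singleton_nonempty _) hTU hY
    (by simpa using hU) hK
  refine ⟨l, t, h1, ?_, h3⟩
  rw [Finset.singleton_zero, zero_add] at h2
  simpa using h2

end Pool.Agent.Helper29.RC
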