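import Mathlib

/-!
Incidences: if few `p` have `p + V ⊆ T` for a set `V` of `M+1` elements of `U`, then `T ⊆ P + U`
has a large matching into `P`.
-/

open scoped Pointwise

namespace Pool.Agent.Helper29.RC

variable {G : Type*} [AddCommGroup G] [DecidableEq G]

theorem le_add_choose (M N : ℕ) : N ≤ M + N.choose (M + 1) := by
  induction N with
  | zero => omega
  | succ N ih =>
    rcases Nat.lt_or_ge N M with h | h
    · omega
    · have h1 : (N + 1).choose (M + 1) = N.choose M + N.choose (M + 1) := Nat.choose_succ_succ N M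
      have h2 : 0 < N.choose M := Nat.choose_pos h
      omega

/-- a matching of a large part of `T` into `P` -/
theorem exists_matching {P U T : Finset G} (M F : ℕ) (hT : T ⊆ P + U)
    (hF : ∀ V ⊆ U, V.card = M + 1 → (P.filter fun p => ∀ v ∈ V, p + v ∈ T).card ≤ F) :
    ∃ P' ⊆ P, ∃ τ : G → G, (∀ p ∈ P', τ p ∈ T ∧ ∃ u ∈ U, τ p = p + u) ∧
      Set.InjOn τ P' ∧ T.card ≤ M * P'.card + U.card ^ (M + 1) * F := by
  classical
  have hch : ∀ t, ∃ p u, t ∈ T → p ∈ P ∧ u ∈ U ∧ p + u = t := by
    intro t
    by_cases ht : t ∈ T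
    · obtain ⟨p, hp, u, hu, h⟩ := Finset.mem_add.1 (hT ht)
      exact ⟨p, u, fun _ => ⟨hp, hu, h⟩⟩
    · exact ⟨0, 0, fun h => absurd h ht⟩
  choose π υ h using hch
  have hτ : ∀ p, ∃ t, p ∈ T.image π → t ∈ T ∧ π t = p := by
    intro p
    by_cases hp : p ∈ T.image π
    · obtain ⟨t, ht, he⟩ := Finset.mem_image.1 hp
      exact ⟨t, fun _ => ⟨ht, he⟩⟩
    · exact ⟨0, fun h => absurd h hp⟩
  choose τ hτ using hτ
  have hP' : T.image π ⊆ P := by
    intro p hp
    obtain ⟨t, ht, rfl⟩ := Finset.mem_image.1 hp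
    exact (h t ht).1
  refine ⟨T.image π, hP', τ, ?_, ?_, ?_⟩
  · intro p hp
    obtain ⟨h1, h2⟩ := hτ p hp
    refine ⟨h1, υ (τ p), (h _ h1).2.1, ?_⟩
    have := (h _ h1).2.2
    rw [h2] at this
    exact this.symm
  · intro p hp q hq hpq
    rw [Finset.mem_coe] at hp hq
    rw [← (hτ p hp).2, ← (hτ q hq).2, hpq]
  · -- counting
    set P' := T.image π with hP'def
    have h1 : T.card ≤ ∑ p ∈ P', (U.filter fun u => p + u ∈ T).card := by
      rw [Finset.card_eq_sum_card_fiberwise (f := π) (t := P')
        (fun t ht => by exact_mod_cast Finset.mem_image_of_mem π (by exact_mod_cast ht))]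
      apply Finset.sum_le_sum
      intro p _
      refine Finset.card_le_card_of_injOn υ ?_ ?_
      · intro t ht
        rw [Finset.mem_coe, Finset.mem_filter] at ht
        obtain ⟨ht, hp⟩ := ht
        obtain ⟨-, h2, h3⟩ := h t ht
        rw [Finset.mem_coe, Finset.mem_filter]
        refine ⟨h2, ?_⟩
        rw [← hp, h3]
        exact ht
      · intro t ht t' ht' htt
        rw [Finset.mem_coe, Finset.mem_filter] at ht ht'
        rw [← (h t ht.1).2.2, ← (h t' ht'.1).2.2, ht.2, ht'.2, htt]
    have h2 : ∀ p ∈ P', (U.filter fun u => p + u ∈ T).card ≤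
        M + ((U.powersetCard (M + 1)).filter fun V => ∀ v ∈ V, p + v ∈ T).card := by
      intro p _
      refine (le_add_choose M _).trans ?_
      rw [← Finset.card_powersetCard]
      apply Nat.add_le_add_left
      apply Finset.card_le_card
      intro V hV
      rw [Finset.mem_powersetCard] at hV
      rw [Finset.mem_filter, Finset.mem_powersetCard]
      refine ⟨⟨hV.1.trans (Finset.filter_subset _ _), hV.2⟩, ?_⟩
      intro v hv
      exact (Finset.mem_filter.1 (hV.1 hv)).2
    have h3 : ∑ p ∈ P', ((U.powersetCard (M + 1)).filter fun V => ∀ v ∈ V, p + v ∈ T).card =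
        ∑ V ∈ U.powersetCard (M + 1), (P'.filter fun p => ∀ v ∈ V, p + v ∈ T).card :=
      Finset.sum_card_bipartiteAbove_eq_sum_card_bipartiteBelow
        (fun (p : G) (V : Finset G) => ∀ v ∈ V, p + v ∈ T)
    have h4 : ∑ V ∈ U.powersetCard (M + 1), (P'.filter fun p => ∀ v ∈ V, p + v ∈ T).card ≤
        U.card ^ (M + 1) * F := by
      have h5 := Finset.sum_le_card_nsmul (U.powersetCard (M + 1))
        (fun V => (P'.filter fun p => ∀ v ∈ V, p + v ∈ T).card) F (by
          intro V hV
          rw [Finset.mem_powersetCard] at hV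
          exact (Finset.card_le_card (Finset.filter_subset_filter _ hP')).trans
            (hF V hV.1 hV.2))
      rw [smul_eq_mul, Finset.card_powersetCard] at h5
      exact h5.trans (Nat.mul_le_mul_right _ (Nat.choose_le_pow _ _))
    calc T.card ≤ ∑ p ∈ P', (U.filter fun u => p + u ∈ T).card := h1
      _ ≤ ∑ p ∈ P', (M + ((U.powersetCard (M + 1)).filter fun V => ∀ v ∈ V, p + v ∈ T).card) :=
          Finset.sum_le_sum h2
      _ = P'.card * M + ∑ p ∈ P',
            ((U.powersetCard (M + 1)).filter fun V => ∀ v ∈ V, p + v ∈ T).card := by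
          rw [Finset.sum_add_distrib, Finset.sum_const, smul_eq_mul]
      _ ≤ M * P'.card + U.card ^ (M + 1) * F := by
          rw [h3, mul_comm P'.card M]
          exact Nat.add_le_add_left h4 _

end Pool.Agent.Helper29.RC
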