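import Pool.Agent.Helper29.RC.CB

/-!
The path from the top gate down to a gate of medium size.
-/

open scoped Pointwise

namespace Pool.Agent.Helper29.RC

open Pool.Agent.Helper82.CF

variable {G : Type*} [AddCommGroup G] [DecidableEq G]

/-- Every element `t` of a large set `S h` is reached either through a gate `j` of medium size
or through a large gate `p` and a small gate `i`. -/
theorem exists_path {s : ℕ} {d : ℕ → Gate} {S : ℕ → Finset G} (hd : ∀ i < s, Fits S i (d i))
    {a b : ℕ} (ha : 1 ≤ a) (hab : a * a ≤ b) :
    ∀ h < s, b < (S h).card → ∀ t ∈ S h,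
      (∃ j ≤ h, a ≤ (S j).card ∧ (S j).card ≤ b ∧ t ∈ ctx d S j h + S j) ∨
      (∃ p ≤ h, ∃ i < s, b < (S p).card ∧ (S i).card < a ∧ t ∈ ctx d S p h + S i) := by
  intro h
  induction h using Nat.strong_induction_on with
  | _ h ih =>
  intro hs hb t ht
  have hab' : a ≤ b := le_trans (by nlinarith) hab
  have hf := hd h hs
  cases hdh : d h with
  | leaf =>
    exfalso
    rw [hdh] at hf
    simp only [Fits] at hf
    omega
  | un j k =>
    rw [hdh] at hf
    obtain ⟨hj, hk, e⟩ := hf
    have key : ∀ e < h, (∀ q ≤ e, ctx d S q e ⊆ ctx d S q h) → t ∈ S e →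
        (∃ j ≤ h, a ≤ (S j).card ∧ (S j).card ≤ b ∧ t ∈ ctx d S j h + S j) ∨
        (∃ p ≤ h, ∃ i < s, b < (S p).card ∧ (S i).card < a ∧ t ∈ ctx d S p h + S i) := by
      intro e he hsub hte
      rcases Nat.lt_or_ge b (S e).card with h1 | h1
      · rcases ih e he (by omega) h1 t hte with ⟨q, hq, h2, h3, h4⟩ | ⟨q, hq, i, hi, h2, h3, h4⟩
        · left
          exact ⟨q, by omega, h2, h3, Finset.add_subset_add_right (hsub q hq) h4⟩
        · right
          exact ⟨q, by omega, i, hi, h2, h3, Finset.add_subset_add_right (hsub q hq) h4⟩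
      · rcases Nat.lt_or_ge (S e).card a with h2 | h2
        · right
          refine ⟨h, le_rfl, e, by omega, hb, h2, ?_⟩
          rw [ctx_self, Finset.singleton_zero, zero_add]
          exact hte
        · left
          refine ⟨e, he.le, h2, h1, ?_⟩
          apply Finset.add_subset_add_right (hsub e le_rfl)
          rw [ctx_self, Finset.singleton_zero, zero_add]
          exact hte
    rw [e] at ht
    rcases Finset.mem_union.1 ht with ht | ht
    · refine key j hj ?_ ht
      intro q hq
      rw [ctx_un (by omega) hdh hj hk]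
      exact Finset.subset_union_left
    · refine key k hk ?_ ht
      intro q hq
      rw [ctx_un (by omega) hdh hj hk]
      exact Finset.subset_union_right
  | sum j k =>
    rw [hdh] at hf
    obtain ⟨hj, hk, e⟩ := hf
    -- `u` the element of the larger child, `v` the other
    have key : ∀ e < h, ∀ u ∈ S e, ∀ v, a ≤ (S e).card →
        (∀ q ≤ e, ctx d S q e + {v} ⊆ ctx d S q h) → t = u + v →
        (∃ j ≤ h, a ≤ (S j).card ∧ (S j).card ≤ b ∧ t ∈ ctx d S j h + S j) ∨
        (∃ p ≤ h, ∃ i < s, b < (S p).card ∧ (S i).card < a ∧ t ∈ ctx d S p h + S i) := by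
      intro e he u hu v hae hsub htuv
      have hmem : ∀ q ≤ e, ∀ i, u ∈ ctx d S q e + S i → t ∈ ctx d S q h + S i := by
        intro q hq i hi
        obtain ⟨c, hc, y, hy, rfl⟩ := Finset.mem_add.1 hi
        rw [htuv, show c + y + v = (c + v) + y by abel]
        apply Finset.add_mem_add _ hy
        exact hsub q hq (Finset.add_mem_add hc (Finset.mem_singleton_self v))
      rcases Nat.lt_or_ge b (S e).card with h1 | h1
      · rcases ih e he (by omega) h1 u hu with ⟨q, hq, h2, h3, h4⟩ | ⟨q, hq, i, hi, h2, h3, h4⟩
        · left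
          exact ⟨q, by omega, h2, h3, hmem q hq q h4⟩
        · right
          exact ⟨q, by omega, i, hi, h2, h3, hmem q hq i h4⟩
      · left
        refine ⟨e, he.le, hae, h1, hmem e le_rfl e ?_⟩
        rw [ctx_self, Finset.singleton_zero, zero_add]
        exact hu
    have hcard : b < (S j).card * (S k).card := by
      rw [e] at hb
      exact hb.trans_le Finset.card_add_le
    rw [e] at ht
    obtain ⟨u, hu, v, hv, rfl⟩ := Finset.mem_add.1 ht
    rcases Nat.lt_or_ge (S j).card (S k).card with h1 | h1
    · -- `k` larger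
      refine key k hk v hv u ?_ ?_ (add_comm _ _)
      · by_contra hcon
        push Not at hcon
        have : (S j).card * (S k).card ≤ a * a := Nat.mul_le_mul (by omega) hcon.le
        omega
      · intro q hq
        rw [ctx_sum (by omega) hdh hj hk, add_comm]
        refine (Finset.add_subset_add_right (Finset.singleton_subset_iff.2 hu)).trans ?_
        exact Finset.subset_union_right
    · refine key j hj u hu v ?_ ?_ rfl
      · by_contra hcon
        push Not at hcon
        have : (S j).card * (S k).card ≤ a * a := Nat.mul_le_mul hcon.le (by omega)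
        omega
      · intro q hq
        rw [ctx_sum (by omega) hdh hj hk]
        refine (Finset.add_subset_add_left (Finset.singleton_subset_iff.2 hv)).trans ?_
        exact Finset.subset_union_left

/-- Petridis: a subset `X` with small `X + U + U` -/
theorem exists_petridis {P U : Finset G} {K : ℕ} (hP : P.Nonempty)
    (hK : (P + U).card ≤ K * P.card) :
    ∃ X ⊆ P, X.Nonempty ∧ (X + U + U).card ≤ K ^ 2 * X.card := by
  classical
  obtain ⟨X, hX, hmin⟩ := Finset.exists_min_image (P.powerset.erase ∅)
    (fun X => ((X + U).card : ℚ≥0) / X.card) ⟨P, by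
      rw [Finset.mem_erase]
      exact ⟨hP.ne_empty, Finset.mem_powerset_self _⟩⟩
  rw [Finset.mem_erase, Finset.mem_powerset] at hX
  obtain ⟨hX0, hXP⟩ := hX
  have hXne : X.Nonempty := Finset.nonempty_iff_ne_empty.2 hX0
  have hXpos : (0 : ℚ≥0) < X.card := by exact_mod_cast Finset.card_pos.2 hXne
  have hPpos : (0 : ℚ≥0) < P.card := by exact_mod_cast Finset.card_pos.2 hP
  have hle : ∀ A' ⊆ P, (X + U).card * A'.card ≤ (A' + U).card * X.card := by
    intro A' hA'
    rcases A'.eq_empty_or_nonempty with rfl | hne
    · simp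
    have h1 := hmin A' (by
      rw [Finset.mem_erase, Finset.mem_powerset]
      exact ⟨hne.ne_empty, hA'⟩)
    have hA'pos : (0 : ℚ≥0) < A'.card := by exact_mod_cast Finset.card_pos.2 hne
    rw [div_le_div_iff₀ hXpos hA'pos] at h1
    exact_mod_cast h1
  have hpet := Finset.pluennecke_petridis_inequality_add (A := X) (B := U) U
    (fun A' hA' => hle A' (hA'.trans hXP))
  have hK' : (X + U).card ≤ K * X.card := by
    have h1 := hle P subset_rfl
    have h2 : (X + U).card * P.card ≤ (K * X.card) * P.card := by
      calc (X + U).card * P.card ≤ (P + U).card * X.card := h1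
        _ ≤ (K * P.card) * X.card := Nat.mul_le_mul_right _ hK
        _ = (K * X.card) * P.card := by ring
    exact Nat.le_of_mul_le_mul_right h2 (Finset.card_pos.2 hP)
  refine ⟨X, hXP, hXne, ?_⟩
  have e1 : U + X + U = X + U + U := by rw [add_comm U X]
  have e2 : U + X = X + U := add_comm _ _
  rw [e1, e2] at hpet
  have h3 : (X + U + U).card * X.card ≤ (K ^ 2 * X.card) * X.card := by
    calc (X + U + U).card * X.card ≤ (X + U).card * (X + U).card := hpet
      _ ≤ (K * X.card) * (K * X.card) := Nat.mul_le_mul hK' hK'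
      _ = (K ^ 2 * X.card) * X.card := by ring
  exact Nat.le_of_mul_le_mul_right h3 (Finset.card_pos.2 hXne)

end Pool.Agent.Helper29.RC
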