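import Pool.Agent.Helper29.RC.Path
import Pool.Agent.Helper29.RC.Inc

/-!
The relative cube lemma: a dense subset `T` of a large set `S` computed by few unions and
sumsets contains a proper Hilbert cube of dimension `k`.
-/

open scoped Pointwise

namespace Pool.Agent.Helper29.RC

open Pool.Agent.Helper82.CF

/-! ### Polynomial bounds -/

/-- `f x ≤ (D x)^D` for some `D` -/
def PolyB (f : ℕ → ℕ) : Prop := ∃ D, 1 ≤ D ∧ ∀ x, 1 ≤ x → f x ≤ (D * x) ^ D

theorem PolyB.const (c : ℕ) : PolyB fun _ => c := by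
  refine ⟨c + 1, by omega, fun x hx => ?_⟩
  calc c ≤ (c + 1) * x := by nlinarith
    _ = ((c + 1) * x) ^ 1 := (pow_one _).symm
    _ ≤ ((c + 1) * x) ^ (c + 1) := Nat.pow_le_pow_right (by positivity) (by omega)

theorem PolyB.id : PolyB fun x => x := ⟨1, le_rfl, fun x _ => by simp⟩

theorem PolyB.mul {f g : ℕ → ℕ} (hf : PolyB f) (hg : PolyB g) : PolyB fun x => f x * g x := by
  obtain ⟨D, hD, h1⟩ := hf
  obtain ⟨E, hE, h2⟩ := hg
  refine ⟨D + E, by omega, fun x hx => ?_⟩
  calc f x * g x ≤ (D * x) ^ D * (E * x) ^ E := Nat.mul_le_mul (h1 x hx) (h2 x hx)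
    _ ≤ ((D + E) * x) ^ D * ((D + E) * x) ^ E :=
        Nat.mul_le_mul (Nat.pow_le_pow_left (Nat.mul_le_mul_right _ (by omega)) _)
          (Nat.pow_le_pow_left (Nat.mul_le_mul_right _ (by omega)) _)
    _ = ((D + E) * x) ^ (D + E) := by rw [pow_add]

theorem PolyB.pow {f : ℕ → ℕ} (hf : PolyB f) (n : ℕ) : PolyB fun x => f x ^ n := by
  induction n with
  | zero => simpa using PolyB.const 1
  | succ n ih => simpa [pow_succ] using ih.mul hf

variable {G : Type*} [AddCommGroup G] [DecidableEq G]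

/-- The relative cube lemma for dimension `k` with the constant `D`. -/
def RCL (G : Type*) [AddCommGroup G] [DecidableEq G] (k D : ℕ) : Prop :=
  ∀ (s μ : ℕ) (d : ℕ → Gate) (S : ℕ → Finset G), 1 ≤ s → 1 ≤ μ → (∀ i < s, Fits S i (d i)) →
    ∀ i < s, ∀ T ⊆ S i, (S i).card ≤ μ * T.card → (D * (s * μ)) ^ D ≤ (S i).card → HasCube k T

theorem rcl_zero : RCL G 0 1 := by
  intro s μ d S hs hμ _ i _ T _ h1 h2
  apply hasCube_zero
  apply Finset.card_pos.1
  have h3 : 0 < (1 * (s * μ)) ^ 1 := by positivity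
  rcases Nat.eq_zero_or_pos T.card with h0 | h0
  · rw [h0, mul_zero] at h1
    omega
  · exact h0

/-- a `k`-cube `Q` with `Q + V ⊆ T` and many elements in `V` gives a `(k+1)`-cube in `T` -/
theorem hasCube_succ {k : ℕ} {P V T : Finset G} (hP : HasCube k P) (hV : 3 ^ k < V.card)
    (h : ∀ p ∈ P, ∀ v ∈ V, p + v ∈ T) : HasCube (k + 1) T := by
  classical
  obtain ⟨l, c, hl, hc, hsub⟩ := hP
  obtain ⟨v0, hv0⟩ := Finset.card_pos.1 (lt_of_le_of_lt (Nat.zero_le _) hV)
  have hex : ∃ v ∈ V, v - v0 ∉ cube l - cube l := by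
    by_contra hcon
    push Not at hcon
    have h1 : (V.image fun v => v - v0) ⊆ cube l - cube l := by
      intro z hz
      obtain ⟨v, hv, rfl⟩ := Finset.mem_image.1 hz
      exact hcon v hv
    have h2 := (Finset.card_le_card h1).trans (cube_sub_card l)
    rw [Finset.card_image_of_injective _ (fun a b hab => sub_left_injective hab), hl] at h2
    omega
  obtain ⟨v, hv, hvv⟩ := hex
  refine ⟨(v - v0) :: l, c + v0, by rw [List.length_cons, hl], ?_, ?_⟩
  · rw [cube_cons]
    have e1 : {0, v - v0} + cube l = cube l ∪ ({v - v0} + cube l) := by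
      rw [Finset.insert_eq, Finset.union_add, Finset.singleton_zero, zero_add]
    have hdisj : Disjoint (cube l) ({v - v0} + cube l) := by
      rw [Finset.disjoint_left]
      intro z hz hz'
      obtain ⟨e, he, q, hq, rfl⟩ := Finset.mem_add.1 hz'
      rw [Finset.mem_singleton] at he
      subst he
      apply hvv
      rw [Finset.mem_sub]
      exact ⟨v - v0 + q, hz, q, hq, by abel⟩
    rw [e1, Finset.card_union_of_disjoint hdisj, card_singleton_add, hc]
    ring
  · rw [cube_cons]
    intro z hz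
    obtain ⟨t', ht', w, hw, rfl⟩ := Finset.mem_add.1 hz
    rw [Finset.mem_singleton] at ht'
    subst ht'
    obtain ⟨e, he, q, hq, rfl⟩ := Finset.mem_add.1 hw
    have h1 : c + q ∈ P := hsub (Finset.mem_add.2 ⟨c, Finset.mem_singleton_self _, q, hq, rfl⟩)
    rw [Finset.mem_insert, Finset.mem_singleton] at he
    rcases he with rfl | rfl
    · rw [show c + v0 + (0 + q) = c + q + v0 by abel]
      exact h _ h1 v0 hv0
    · rw [show c + v0 + (v - v0 + q) = c + q + v by abel]
      exact h _ h1 v hv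

theorem hasCube_translate {k : ℕ} {P T : Finset G} (hP : HasCube k P) (y : G)
    (h : ∀ p ∈ P, p + y ∈ T) : HasCube k T := by
  obtain ⟨l, c, hl, hc, hsub⟩ := hP
  refine ⟨l, c + y, hl, hc, ?_⟩
  intro z hz
  obtain ⟨t', ht', q, hq, rfl⟩ := Finset.mem_add.1 hz
  rw [Finset.mem_singleton] at ht'
  subst ht'
  have h1 : c + q ∈ P := hsub (Finset.mem_add.2 ⟨c, Finset.mem_singleton_self _, q, hq, rfl⟩)
  rw [show c + y + q = c + q + y by abel]
  exact h _ h1

/-- Case (A): a gate of medium size. -/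
theorem caseA {k D : ℕ} (hD : RCL G k D) {s Λ : ℕ} {d : ℕ → Gate} {S : ℕ → Finset G}
    (hs : 1 ≤ s) (hΛ : 1 ≤ Λ) (hd : ∀ i < s, Fits S i (d i)) {i p : ℕ} (hi : i < s)
    {x b : ℕ} (hx : 1 ≤ x) (hsx : s ≤ x) (hΛb : 4 * x ^ 2 * b ^ (3 ^ k + 1) ≤ Λ)
    (hbig : Λ * (D * (4 * x * Λ)) ^ D ≤ (S i).card) (hub : (S p).card ≤ b)
    (hua : (2 * (4 * 3 ^ k * x ^ 2) ^ 2) ^ (2 ^ (k + 1)) * 3 ^ (k + 1) ≤ (S p).card)
    {T : Finset G} (hT : T ⊆ ctx d S p i + S p) (hTne : T.Nonempty)
    (hST : (S i).card ≤ 2 * x ^ 2 * T.card) : HasCube (k + 1) T := by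
  classical
  by_contra hno
  set P := ctx d S p i with hP
  set U := S p with hU
  have hPU : P + U ⊆ S i := ctx_add hd p i hi
  have hUne : U.Nonempty := by
    apply Finset.card_pos.1
    refine lt_of_lt_of_le ?_ hua
    positivity
  obtain ⟨u, hu⟩ := hUne
  have hPS : P.card ≤ (S i).card := by
    rw [← card_singleton_add u P]
    apply Finset.card_le_card
    rw [add_comm]
    exact (Finset.add_subset_add_left (Finset.singleton_subset_iff.2 hu)).trans hPU
  -- few `p` with `p + V ⊆ T`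
  have hF : ∀ V ⊆ U, V.card = 3 ^ k + 1 →
      (P.filter fun p => ∀ v ∈ V, p + v ∈ T).card ≤ (S i).card / Λ := by
    intro V _ hVc
    rw [Nat.le_div_iff_mul_le hΛ]
    by_contra hcon
    push Not at hcon
    set TV := P.filter fun p => ∀ v ∈ V, p + v ∈ T with hTV
    obtain ⟨d', hd'⟩ := aux_fits hd p
    have hidx : s + 3 * i + 2 < 4 * s := by omega
    have hcube : HasCube k TV := by
      refine hD (4 * s) Λ d' (aux d S p s) (by omega) hΛ hd' (s + 3 * i + 2) hidx TV ?_ ?_ ?_
      · rw [aux_ctx]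
        exact Finset.filter_subset _ _
      · rw [aux_ctx]
        calc P.card ≤ (S i).card := hPS
          _ ≤ Λ * TV.card := by rw [mul_comm]; exact hcon.le
      · rw [aux_ctx]
        have h1 : TV.card ≤ P.card := Finset.card_filter_le _ _
        have h2 : Λ * (D * (4 * x * Λ)) ^ D < Λ * TV.card := by
          rw [mul_comm Λ TV.card]
          exact lt_of_le_of_lt hbig hcon
        have h3 : (D * (4 * x * Λ)) ^ D < TV.card := Nat.lt_of_mul_lt_mul_left h2
        calc (D * (4 * s * Λ)) ^ D ≤ (D * (4 * x * Λ)) ^ D := by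
              apply Nat.pow_le_pow_left
              apply Nat.mul_le_mul_left
              apply Nat.mul_le_mul_right
              omega
          _ ≤ P.card := by omega
    apply hno
    refine hasCube_succ hcube (by omega) (V := V) ?_
    intro q hq v hv
    exact (Finset.mem_filter.1 hq).2 v hv
  obtain ⟨P', hP'P, τ, hτ, hinj, hcount⟩ := exists_matching (3 ^ k) _ hT hF
  -- `|T| ≤ 2 M |P'|`
  have hsmall : 2 * (U.card ^ (3 ^ k + 1) * ((S i).card / Λ)) ≤ T.card := by
    have h1 : U.card ^ (3 ^ k + 1) ≤ b ^ (3 ^ k + 1) := Nat.pow_le_pow_left hub _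
    have h2 : (2 * x ^ 2) * (2 * (U.card ^ (3 ^ k + 1) * ((S i).card / Λ))) ≤
        (2 * x ^ 2) * T.card := by
      calc (2 * x ^ 2) * (2 * (U.card ^ (3 ^ k + 1) * ((S i).card / Λ)))
          = (4 * x ^ 2 * U.card ^ (3 ^ k + 1)) * ((S i).card / Λ) := by ring
        _ ≤ Λ * ((S i).card / Λ) :=
            Nat.mul_le_mul_right _ ((Nat.mul_le_mul_left _ h1).trans hΛb)
        _ ≤ (S i).card := Nat.mul_div_le _ _
        _ ≤ (2 * x ^ 2) * T.card := hST
    exact Nat.le_of_mul_le_mul_left h2 (by positivity)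
  have hTP : T.card ≤ 2 * 3 ^ k * P'.card := by
    have : 2 * 3 ^ k * P'.card = 2 * (3 ^ k * P'.card) := by ring
    omega
  have hP'ne : P'.Nonempty := by
    apply Finset.card_pos.1
    rcases Nat.eq_zero_or_pos P'.card with h0 | h0
    · rw [h0, mul_zero] at hTP
      have := Finset.card_pos.2 hTne
      omega
    · exact h0
  have hSK : (S i).card ≤ 4 * 3 ^ k * x ^ 2 * P'.card := by
    calc (S i).card ≤ 2 * x ^ 2 * T.card := hST
      _ ≤ 2 * x ^ 2 * (2 * 3 ^ k * P'.card) := Nat.mul_le_mul_left _ hTP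
      _ = 4 * 3 ^ k * x ^ 2 * P'.card := by ring
  obtain ⟨X, hXP, hXne, hXU⟩ := exists_petridis (U := U) (K := 4 * 3 ^ k * x ^ 2) hP'ne
    ((Finset.card_le_card ((Finset.add_subset_add_right hP'P).trans hPU)).trans hSK)
  have hTX : (X.image τ).card = X.card :=
    Finset.card_image_of_injOn (hinj.mono (by exact_mod_cast hXP))
  have hTXT : X.image τ ⊆ T := by
    intro z hz
    obtain ⟨q, hq, rfl⟩ := Finset.mem_image.1 hz
    exact (hτ q (hXP hq)).1
  have hTXU : X.image τ + U ⊆ X + U + U := by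
    apply Finset.add_subset_add_right
    intro z hz
    obtain ⟨q, hq, rfl⟩ := Finset.mem_image.1 hz
    obtain ⟨v, hv, e⟩ := (hτ q (hXP hq)).2
    rw [e]
    exact Finset.add_mem_add hq hv
  have hcube := hasCube_of_add (k := k + 1) (K := (4 * 3 ^ k * x ^ 2) ^ 2) (hXne.image τ) hTXU
    (by rw [hTX]; exact hXU) (Nat.one_le_pow _ _ (by positivity)) hua
  exact hno (hcube.mono hTXT)

/-- Case (B): a large gate and a small gate. -/
theorem caseB {k : ℕ} {s : ℕ} {d : ℕ → Gate} {S : ℕ → Finset G}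
    (hd : ∀ i < s, Fits S i (d i)) {i p q : ℕ} (hi : i < s)
    {x a : ℕ} (hx : 1 ≤ x) (ha : 1 ≤ a) (hqa : (S q).card ≤ a)
    (hpb : (2 * (2 * x ^ 2 * a)) ^ (2 ^ (k + 1)) * 3 ^ (k + 1) ≤ (S p).card)
    {T : Finset G} (hT : T ⊆ ctx d S p i + S q) (hTne : T.Nonempty)
    (hST : (S i).card ≤ 2 * x ^ 2 * T.card) : HasCube (k + 1) T := by
  classical
  have hex : ∃ y ∈ S q, T.card ≤ a * ((ctx d S p i).filter fun c => c + y ∈ T).card := by
    by_contra hcon
    push Not at hcon
    have hTsub : T ⊆ (S q).biUnion fun y =>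
        ((ctx d S p i).filter fun c => c + y ∈ T).image fun c => c + y := by
      intro t ht
      obtain ⟨c, hc, y, hy, rfl⟩ := Finset.mem_add.1 (hT ht)
      rw [Finset.mem_biUnion]
      exact ⟨y, hy, Finset.mem_image.2 ⟨c, Finset.mem_filter.2 ⟨hc, ht⟩, rfl⟩⟩
    have h1 : T.card ≤ ∑ y ∈ S q, ((ctx d S p i).filter fun c => c + y ∈ T).card :=
      ((Finset.card_le_card hTsub).trans Finset.card_biUnion_le).trans
        (Finset.sum_le_sum fun y _ => Finset.card_image_le)
    have hTpos : 0 < T.card := Finset.card_pos.2 hTne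
    have h2 : a * ∑ y ∈ S q, ((ctx d S p i).filter fun c => c + y ∈ T).card ≤
        (S q).card * (T.card - 1) := by
      rw [Finset.mul_sum]
      have := Finset.sum_le_card_nsmul (S q)
        (fun y => a * ((ctx d S p i).filter fun c => c + y ∈ T).card) (T.card - 1)
        (fun y hy => by have := hcon y hy; omega)
      rwa [smul_eq_mul] at this
    have h3 : a * T.card ≤ a * (T.card - 1) :=
      (Nat.mul_le_mul_left _ h1).trans (h2.trans (Nat.mul_le_mul_right _ hqa))
    have h4 := Nat.le_of_mul_le_mul_left h3 ha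
    omega
  obtain ⟨y, hy, hTy⟩ := hex
  set T2 := (ctx d S p i).filter fun c => c + y ∈ T with hT2
  have hT2ne : T2.Nonempty := by
    apply Finset.card_pos.1
    rcases Nat.eq_zero_or_pos T2.card with h0 | h0
    · rw [h0, mul_zero] at hTy
      have := Finset.card_pos.2 hTne
      omega
    · exact h0
  have hcube : HasCube (k + 1) T2 := by
    refine hasCube_of_add (k := k + 1) (K := 2 * x ^ 2 * a) (U := S p) (Y := S i) hT2ne ?_ ?_
      (by have : 0 < 2 * x ^ 2 * a := by positivity
          omega) hpb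
    · exact (Finset.add_subset_add_right (Finset.filter_subset _ _)).trans (ctx_add hd p i hi)
    · calc (S i).card ≤ 2 * x ^ 2 * T.card := hST
        _ ≤ 2 * x ^ 2 * (a * T2.card) := Nat.mul_le_mul_left _ hTy
        _ = 2 * x ^ 2 * a * T2.card := by ring
  exact hasCube_translate hcube y fun c hc => (Finset.mem_filter.1 hc).2

/-- the lower threshold for the medium gates -/
def thA (k x : ℕ) : ℕ := (2 * (4 * 3 ^ k * x ^ 2) ^ 2) ^ (2 ^ (k + 1)) * 3 ^ (k + 1)

/-- the upper threshold for the medium gates -/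
def thB (k x : ℕ) : ℕ :=
  (thA k x * thA k x) * ((2 * (2 * x ^ 2 * thA k x)) ^ (2 ^ (k + 1)) * 3 ^ (k + 1))

/-- the loss in the induction step -/
def thL (k x : ℕ) : ℕ := 4 * x ^ 2 * thB k x ^ (3 ^ k + 1)

/-- the final threshold -/
def thr (k D x : ℕ) : ℕ := 2 * thB k x * (thL k x * (D * (4 * x * thL k x)) ^ D)

theorem thA_pos {k x : ℕ} (hx : 1 ≤ x) : 1 ≤ thA k x := by
  unfold thA
  have : 0 < (2 * (4 * 3 ^ k * x ^ 2) ^ 2) ^ (2 ^ (k + 1)) * 3 ^ (k + 1) := by positivity
  omega

theorem thB_pos {k x : ℕ} (hx : 1 ≤ x) : 1 ≤ thB k x := by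
  have h1 := thA_pos (k := k) hx
  have : 0 < thB k x := by unfold thB; positivity
  omega

theorem thL_pos {k x : ℕ} (hx : 1 ≤ x) : 1 ≤ thL k x := by
  have h1 := thB_pos (k := k) hx
  have : 0 < thL k x := by unfold thL; positivity
  omega

theorem polyB_thA (k : ℕ) : PolyB (thA k) := by
  unfold thA
  exact (((PolyB.const 2).mul (((PolyB.const _).mul (PolyB.id.pow 2)).pow 2)).pow _).mul
    (PolyB.const _)

theorem polyB_thB (k : ℕ) : PolyB (thB k) := by
  unfold thB
  exact ((polyB_thA k).mul (polyB_thA k)).mul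
    ((((PolyB.const 2).mul (((PolyB.const 2).mul (PolyB.id.pow 2)).mul (polyB_thA k))).pow _).mul
      (PolyB.const _))

theorem polyB_thL (k : ℕ) : PolyB (thL k) := by
  unfold thL
  exact ((PolyB.const 4).mul (PolyB.id.pow 2)).mul ((polyB_thB k).pow _)

theorem polyB_thr (k D : ℕ) : PolyB (thr k D) := by
  unfold thr
  exact ((PolyB.const 2).mul (polyB_thB k)).mul ((polyB_thL k).mul
    (((PolyB.const D).mul (((PolyB.const 4).mul PolyB.id).mul (polyB_thL k))).pow D))

/-- the induction step with explicit threshold -/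
theorem rcl_step {k D : ℕ} (hD1 : 1 ≤ D) (hD : RCL G k D) {s μ : ℕ} {d : ℕ → Gate}
    {S : ℕ → Finset G} (hs : 1 ≤ s) (hμ : 1 ≤ μ) (hd : ∀ i < s, Fits S i (d i)) {i : ℕ}
    (hi : i < s) {T : Finset G} (hT : T ⊆ S i) (hST : (S i).card ≤ μ * T.card)
    (hbig : thr k D (s * μ) ≤ (S i).card) : HasCube (k + 1) T := by
  classical
  by_contra hno
  obtain ⟨x, hx⟩ : ∃ x, x = s * μ := ⟨_, rfl⟩
  rw [← hx] at hbig
  have hx1 : 1 ≤ x := by rw [hx]; exact Nat.mul_pos hs hμ
  have hsx : s ≤ x := by rw [hx]; exact Nat.le_mul_of_pos_right s hμ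
  have hA := thA_pos (k := k) hx1
  have hB := thB_pos (k := k) hx1
  have hL := thL_pos (k := k) hx1
  have hLD : 1 ≤ thL k x * (D * (4 * x * thL k x)) ^ D := by
    have : 0 < thL k x * (D * (4 * x * thL k x)) ^ D := by positivity
    omega
  have hbS : thB k x < (S i).card := by
    have h1 : 2 * thB k x * 1 ≤ thr k D x := by
      unfold thr
      exact Nat.mul_le_mul_left _ hLD
    omega
  have hbigL : thL k x * (D * (4 * x * thL k x)) ^ D ≤ (S i).card := by
    refine le_trans ?_ hbig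
    unfold thr
    exact Nat.le_mul_of_pos_left _ (by omega)
  have hAB : thA k x * thA k x ≤ thB k x := by
    unfold thB
    apply Nat.le_mul_of_pos_right
    positivity
  have hBp : (2 * (2 * x ^ 2 * thA k x)) ^ (2 ^ (k + 1)) * 3 ^ (k + 1) ≤ thB k x := by
    unfold thB
    apply Nat.le_mul_of_pos_left
    positivity
  -- the pieces
  let W : ℕ × ℕ → Finset G := fun w =>
    if w.2 = s then
      (if thA k x ≤ (S w.1).card ∧ (S w.1).card ≤ thB k x then
        T.filter fun t => t ∈ ctx d S w.1 i + S w.1 else ∅)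
    else
      (if thB k x < (S w.1).card ∧ (S w.2).card < thA k x then
        T.filter fun t => t ∈ ctx d S w.1 i + S w.2 else ∅)
  have hcover : T ⊆ (Finset.range s ×ˢ Finset.range (s + 1)).biUnion W := by
    intro t ht
    rw [Finset.mem_biUnion]
    rcases exists_path hd hA hAB i hi hbS t (hT ht) with ⟨j, hj, h1, h2, h3⟩ |
      ⟨p, hp, q, hq, h1, h2, h3⟩
    · refine ⟨(j, s), ?_, ?_⟩
      · rw [Finset.mem_product, Finset.mem_range, Finset.mem_range]
        exact ⟨by show j < s; omega, by show s < s + 1; omega⟩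
      · simp only [W]
        rw [if_true, if_pos ⟨h1, h2⟩, Finset.mem_filter]
        exact ⟨ht, h3⟩
    · refine ⟨(p, q), ?_, ?_⟩
      · rw [Finset.mem_product, Finset.mem_range, Finset.mem_range]
        exact ⟨by show p < s; omega, by show q < s + 1; omega⟩
      · simp only [W]
        rw [if_neg (by omega), if_pos ⟨h1, h2⟩, Finset.mem_filter]
        exact ⟨ht, h3⟩
  have hS0 : 0 < (S i).card := by omega
  have hTpos : 0 < T.card := by
    rcases Nat.eq_zero_or_pos T.card with h0 | h0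
    · rw [h0, mul_zero] at hST
      omega
    · exact h0
  obtain ⟨w, hw, hTw⟩ : ∃ w ∈ Finset.range s ×ˢ Finset.range (s + 1),
      T.card ≤ 2 * s ^ 2 * (W w).card := by
    by_contra hcon
    push Not at hcon
    have h1 : T.card ≤ ∑ w ∈ Finset.range s ×ˢ Finset.range (s + 1), (W w).card :=
      (Finset.card_le_card hcover).trans Finset.card_biUnion_le
    have h2 : 2 * s ^ 2 * ∑ w ∈ Finset.range s ×ˢ Finset.range (s + 1), (W w).card ≤
        (s * (s + 1)) * (T.card - 1) := by
      rw [Finset.mul_sum]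
      have := Finset.sum_le_card_nsmul (Finset.range s ×ˢ Finset.range (s + 1))
        (fun w => 2 * s ^ 2 * (W w).card) (T.card - 1)
        (fun w hw => by have := hcon w hw; omega)
      rw [smul_eq_mul, Finset.card_product, Finset.card_range, Finset.card_range] at this
      exact this
    have h3 : s * (s + 1) ≤ 2 * s ^ 2 := by nlinarith
    have h4 : 2 * s ^ 2 * T.card ≤ 2 * s ^ 2 * (T.card - 1) :=
      (Nat.mul_le_mul_left _ h1).trans (h2.trans (Nat.mul_le_mul_right _ h3))
    have h5 := Nat.le_of_mul_le_mul_left h4 (by positivity)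
    omega
  have hSW : (S i).card ≤ 2 * x ^ 2 * (W w).card := by
    calc (S i).card ≤ μ * T.card := hST
      _ ≤ μ * (2 * s ^ 2 * (W w).card) := Nat.mul_le_mul_left _ hTw
      _ ≤ μ * (2 * s ^ 2 * (W w).card) * μ := Nat.le_mul_of_pos_right _ hμ
      _ = 2 * x ^ 2 * (W w).card := by rw [hx]; ring
  have hWne : (W w).Nonempty := by
    apply Finset.card_pos.1
    rcases Nat.eq_zero_or_pos (W w).card with h0 | h0
    · rw [h0, mul_zero] at hSW
      omega
    · exact h0
  have hWT : W w ⊆ T := by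
    simp only [W]
    split_ifs
    · exact Finset.filter_subset _ _
    · exact Finset.empty_subset _
    · exact Finset.filter_subset _ _
    · exact Finset.empty_subset _
  apply hno
  refine HasCube.mono ?_ hWT
  obtain ⟨p, q⟩ := w
  by_cases hq : q = s
  · -- case (A)
    by_cases hc : thA k x ≤ (S p).card ∧ (S p).card ≤ thB k x
    · have hWe : W (p, q) = T.filter fun t => t ∈ ctx d S p i + S p := by
        simp only [W]
        rw [if_pos hq, if_pos hc]
      refine caseA hD hs hL hd hi hx1 hsx (b := thB k x) le_rfl hbigL hc.2 hc.1 ?_ hWne hSW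
      rw [hWe]
      intro t ht
      exact (Finset.mem_filter.1 ht).2
    · exfalso
      have hWe : W (p, q) = ∅ := by
        simp only [W]
        rw [if_pos hq, if_neg hc]
      rw [hWe] at hWne
      exact Finset.not_nonempty_empty hWne
  · -- case (B)
    by_cases hc : thB k x < (S p).card ∧ (S q).card < thA k x
    · have hWe : W (p, q) = T.filter fun t => t ∈ ctx d S p i + S q := by
        simp only [W]
        rw [if_neg hq, if_pos hc]
      refine caseB hd hi hx1 hA hc.2.le (hBp.trans hc.1.le) ?_ hWne hSW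
      rw [hWe]
      intro t ht
      exact (Finset.mem_filter.1 ht).2
    · exfalso
      have hWe : W (p, q) = ∅ := by
        simp only [W]
        rw [if_neg hq, if_neg hc]
      rw [hWe] at hWne
      exact Finset.not_nonempty_empty hWne

/-- **Relative cube lemma.** -/
theorem exists_rcl (k : ℕ) : ∃ D, 1 ≤ D ∧ RCL G k D := by
  induction k with
  | zero => exact ⟨1, le_rfl, rcl_zero⟩
  | succ k ih =>
    obtain ⟨D, hD1, hD⟩ := ih
    obtain ⟨E, hE1, hE⟩ := polyB_thr k D
    refine ⟨E, hE1, ?_⟩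
    intro s μ d S hs hμ hd i hi T hT hST hbig
    exact rcl_step hD1 hD hs hμ hd hi hT hST ((hE _ (Nat.mul_pos hs hμ)).trans hbig)

end Pool.Agent.Helper29.RC
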