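import Pool.Agent.Helper29.RC.Rcl

/-!
The relative cube lemma with explicit constants.
-/

open scoped Pointwise

namespace Pool.Agent.Helper29.RC

open Pool.Agent.Helper82.CF

/-! ### Polynomial bounds with explicit exponent -/

/-- `f x ≤ (C x)^E` -/
def PBE (f : ℕ → ℕ) (C E : ℕ) : Prop := ∀ x, 1 ≤ x → f x ≤ (C * x) ^ E

theorem PBE.mono {f : ℕ → ℕ} {C C' E E' : ℕ} (h : PBE f C E) (hC : 1 ≤ C) (h1 : C ≤ C')
    (h2 : E ≤ E') : PBE f C' E' := fun x hx =>
  calc f x ≤ (C * x) ^ E := h x hx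
    _ ≤ (C' * x) ^ E := Nat.pow_le_pow_left (Nat.mul_le_mul_right _ h1) _
    _ ≤ (C' * x) ^ E' := Nat.pow_le_pow_right (Nat.mul_pos (by omega) hx) h2

theorem PBE.const {C : ℕ} (c : ℕ) (h : c ≤ C) : PBE (fun _ => c) C 1 := fun x hx => by
  rw [pow_one]
  exact h.trans (Nat.le_mul_of_pos_right _ hx)

theorem PBE.id {C : ℕ} (h : 1 ≤ C) : PBE (fun x => x) C 1 := fun x _ => by
  rw [pow_one]
  exact Nat.le_mul_of_pos_left _ h

theorem PBE.mul {f g : ℕ → ℕ} {C E E' : ℕ} (hf : PBE f C E) (hg : PBE g C E') :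
    PBE (fun x => f x * g x) C (E + E') := fun x hx => by
  rw [pow_add]
  exact Nat.mul_le_mul (hf x hx) (hg x hx)

theorem PBE.pow {f : ℕ → ℕ} {C E : ℕ} (hf : PBE f C E) (n : ℕ) :
    PBE (fun x => f x ^ n) C (E * n) := fun x hx => by
  rw [pow_mul]
  exact Nat.pow_le_pow_left (hf x hx) n

theorem pbe_thA (k : ℕ) : PBE (thA k) (4 * 3 ^ (k + 1)) (2 ^ (k + 4)) := by
  have hC : 1 ≤ 4 * 3 ^ (k + 1) := by
    have : 0 < 4 * 3 ^ (k + 1) := by positivity
    omega
  have h3 : 1 ≤ 3 ^ (k + 1) := Nat.one_le_pow _ _ (by norm_num)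
  have h := (((PBE.const (C := 4 * 3 ^ (k + 1)) 2 (by omega)).mul
    (((PBE.const (C := 4 * 3 ^ (k + 1)) (4 * 3 ^ k) (by
        rw [pow_succ]; omega)).mul ((PBE.id hC).pow 2)).pow 2)).pow (2 ^ (k + 1))).mul
    (PBE.const (C := 4 * 3 ^ (k + 1)) (3 ^ (k + 1)) (by omega))
  refine PBE.mono (f := thA k) h hC le_rfl ?_
  have h4 : 1 ≤ 2 ^ (k + 1) := Nat.one_le_two_pow
  have h5 : 2 ^ (k + 4) = 8 * 2 ^ (k + 1) := by ring
  rw [h5]
  omega

theorem pbe_thB (k : ℕ) : PBE (thB k) (4 * 3 ^ (k + 1)) (2 ^ (2 * k + 7)) := by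
  have hC : 1 ≤ 4 * 3 ^ (k + 1) := by
    have : 0 < 4 * 3 ^ (k + 1) := by positivity
    omega
  have h3 : 1 ≤ 3 ^ (k + 1) := Nat.one_le_pow _ _ (by norm_num)
  have h := ((pbe_thA k).mul (pbe_thA k)).mul
    ((((PBE.const (C := 4 * 3 ^ (k + 1)) 2 (by omega)).mul
      (((PBE.const (C := 4 * 3 ^ (k + 1)) 2 (by omega)).mul ((PBE.id hC).pow 2)).mul
        (pbe_thA k))).pow (2 ^ (k + 1))).mul
      (PBE.const (C := 4 * 3 ^ (k + 1)) (3 ^ (k + 1)) (by omega)))
  refine PBE.mono (f := thB k) h hC le_rfl ?_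
  have h4 : 1 ≤ 2 ^ k := Nat.one_le_two_pow
  have e1 : 2 ^ (k + 4) = 16 * 2 ^ k := by ring
  have e2 : 2 ^ (k + 1) = 2 * 2 ^ k := by ring
  have e3 : 2 ^ (2 * k + 7) = 128 * (2 ^ k * 2 ^ k) := by ring
  rw [e1, e2, e3]
  nlinarith [Nat.mul_le_mul h4 h4]

theorem pbe_thL (k : ℕ) : PBE (thL k) (4 * 3 ^ (k + 1)) (2 ^ (2 * k + 9) * 3 ^ k) := by
  have hC : 1 ≤ 4 * 3 ^ (k + 1) := by
    have : 0 < 4 * 3 ^ (k + 1) := by positivity
    omega
  have h3 : 1 ≤ 3 ^ (k + 1) := Nat.one_le_pow _ _ (by norm_num)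
  have h := ((PBE.const (C := 4 * 3 ^ (k + 1)) 4 (by omega)).mul ((PBE.id hC).pow 2)).mul
    ((pbe_thB k).pow (3 ^ k + 1))
  refine PBE.mono (f := thL k) h hC le_rfl ?_
  have h4 : 1 ≤ 3 ^ k := Nat.one_le_pow _ _ (by norm_num)
  have h5 : 128 ≤ 2 ^ (2 * k + 7) := by
    calc 128 = 2 ^ 7 := by norm_num
      _ ≤ 2 ^ (2 * k + 7) := Nat.pow_le_pow_right (by norm_num) (by omega)
  have e1 : 2 ^ (2 * k + 9) = 4 * 2 ^ (2 * k + 7) := by ring
  rw [e1]
  nlinarith [Nat.mul_le_mul h5 h4]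

/-- the threshold with the constants `C, E` of the previous step -/
def thrE (k C E x : ℕ) : ℕ := 2 * thB k x * (thL k x * (C * (4 * x * thL k x)) ^ E)

theorem pbe_thrE {k C E : ℕ} (hC1 : 1 ≤ C) (hC : C ≤ 4 * 3 ^ (k + 1)) (hE : 1 ≤ E) :
    PBE (thrE k C E) (4 * 3 ^ (k + 1)) (E * 2 ^ (4 * k + 11)) := by
  have hC' : 1 ≤ 4 * 3 ^ (k + 1) := by omega
  have h3 : 1 ≤ 3 ^ (k + 1) := Nat.one_le_pow _ _ (by norm_num)
  have h := ((PBE.const (C := 4 * 3 ^ (k + 1)) 2 (by omega)).mul (pbe_thB k)).mul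
    ((pbe_thL k).mul (((PBE.const (C := 4 * 3 ^ (k + 1)) C hC).mul
      (((PBE.const (C := 4 * 3 ^ (k + 1)) 4 (by omega)).mul (PBE.id hC')).mul
        (pbe_thL k))).pow E))
  refine PBE.mono (f := thrE k C E) h hC' le_rfl ?_
  -- exponents
  have h4 : 1 ≤ 2 ^ k := Nat.one_le_two_pow
  have h5 : 3 ^ k ≤ 2 ^ k * 2 ^ k := by
    rw [← mul_pow]
    exact Nat.pow_le_pow_left (by norm_num) k
  have h6 : 1 ≤ 2 ^ k * 2 ^ k := Nat.mul_le_mul h4 h4
  have h7 : 1 ≤ (2 ^ k * 2 ^ k) * (2 ^ k * 2 ^ k) := Nat.mul_le_mul h6 h6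
  set y := 2 ^ k * 2 ^ k with hy
  have e1 : 2 ^ (2 * k + 7) = 128 * y := by rw [hy]; ring
  have e2 : 2 ^ (2 * k + 9) = 512 * y := by rw [hy]; ring
  have e3 : 2 ^ (4 * k + 11) = 2048 * (y * y) := by rw [hy]; ring
  rw [e1, e2, e3]
  have h8 : 512 * y * 3 ^ k ≤ 512 * (y * y) := by
    calc 512 * y * 3 ^ k ≤ 512 * y * y := Nat.mul_le_mul_left _ h5
      _ = 512 * (y * y) := by ring
  have h9 : y ≤ y * y := Nat.le_mul_of_pos_left _ (by omega)
  calc 1 + 128 * y + (512 * y * 3 ^ k + (1 + (1 + 1 + 512 * y * 3 ^ k)) * E)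
      ≤ (1 + 128 * y) * E + ((512 * (y * y)) * E + (3 + 512 * (y * y)) * E) := by
        have a1 : 1 + 128 * y ≤ (1 + 128 * y) * E := Nat.le_mul_of_pos_right _ hE
        have a2 : 512 * y * 3 ^ k ≤ (512 * (y * y)) * E :=
          h8.trans (Nat.le_mul_of_pos_right _ hE)
        have a3 : (1 + (1 + 1 + 512 * y * 3 ^ k)) * E ≤ (3 + 512 * (y * y)) * E :=
          Nat.mul_le_mul_right _ (by omega)
        omega
    _ = E * (4 + 128 * y + 1024 * (y * y)) := by ring
    _ ≤ E * (2048 * (y * y)) := by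
        apply Nat.mul_le_mul_left
        omega

variable {G : Type*} [AddCommGroup G] [DecidableEq G]

/-- The relative cube lemma for dimension `k` with the constants `C`, `E`. -/
def RCLE (G : Type*) [AddCommGroup G] [DecidableEq G] (k C E : ℕ) : Prop :=
  ∀ (s μ : ℕ) (d : ℕ → Gate) (S : ℕ → Finset G), 1 ≤ s → 1 ≤ μ → (∀ i < s, Fits S i (d i)) →
    ∀ i < s, ∀ T ⊆ S i, (S i).card ≤ μ * T.card → (C * (s * μ)) ^ E ≤ (S i).card → HasCube k T

theorem rclE_zero : RCLE G 0 4 1 := by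
  intro s μ d S hs hμ _ i _ T _ h1 h2
  apply hasCube_zero
  apply Finset.card_pos.1
  have h3 : 0 < (4 * (s * μ)) ^ 1 := by positivity
  rcases Nat.eq_zero_or_pos T.card with h0 | h0
  · rw [h0, mul_zero] at h1
    omega
  · exact h0

/-- Case (A): a gate of medium size. -/
theorem caseA_e {k C E : ℕ} (hD : RCLE G k C E) {s Λ : ℕ} {d : ℕ → Gate} {S : ℕ → Finset G}
    (hs : 1 ≤ s) (hΛ : 1 ≤ Λ) (hd : ∀ i < s, Fits S i (d i)) {i p : ℕ} (hi : i < s)
    {x b : ℕ} (hx : 1 ≤ x) (hsx : s ≤ x) (hΛb : 4 * x ^ 2 * b ^ (3 ^ k + 1) ≤ Λ)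
    (hbig : Λ * (C * (4 * x * Λ)) ^ E ≤ (S i).card) (hub : (S p).card ≤ b)
    (hua : (2 * (4 * 3 ^ k * x ^ 2) ^ 2) ^ (2 ^ (k + 1)) * 3 ^ (k + 1) ≤ (S p).card)
    {T : Finset G} (hT : T ⊆ ctx d S p i + S p) (hTne : T.Nonempty)
    (hST : (S i).card ≤ 2 * x ^ 2 * T.card) : HasCube (k + 1) T := by
  classical
  by_contra hno
  set P := ctx d S p i with hP
  set U := S p with hU
  have hPU : P + U ⊆ S i := ctx_add hd p i hi
  have hUne : U.Nonempty := by
    apply Finset.card_pos.1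
    refine lt_of_lt_of_le ?_ hua
    positivity
  obtain ⟨u, hu⟩ := hUne
  have hPS : P.card ≤ (S i).card := by
    rw [← card_singleton_add u P]
    apply Finset.card_le_card
    rw [add_comm]
    exact (Finset.add_subset_add_left (Finset.singleton_subset_iff.2 hu)).trans hPU
  -- few `p` with `p + V ⊆ T`
  have hF : ∀ V ⊆ U, V.card = 3 ^ k + 1 →
      (P.filter fun p => ∀ v ∈ V, p + v ∈ T).card ≤ (S i).card / Λ := by
    intro V _ hVc
    rw [Nat.le_div_iff_mul_le hΛ]
    by_contra hcon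
    push Not at hcon
    set TV := P.filter fun p => ∀ v ∈ V, p + v ∈ T with hTV
    obtain ⟨d', hd'⟩ := aux_fits hd p
    have hidx : s + 3 * i + 2 < 4 * s := by omega
    have hcube : HasCube k TV := by
      refine hD (4 * s) Λ d' (aux d S p s) (by omega) hΛ hd' (s + 3 * i + 2) hidx TV ?_ ?_ ?_
      · rw [aux_ctx]
        exact Finset.filter_subset _ _
      · rw [aux_ctx]
        calc P.card ≤ (S i).card := hPS
          _ ≤ Λ * TV.card := by rw [mul_comm]; exact hcon.le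
      · rw [aux_ctx]
        have h1 : TV.card ≤ P.card := Finset.card_filter_le _ _
        have h2 : Λ * (C * (4 * x * Λ)) ^ E < Λ * TV.card := by
          rw [mul_comm Λ TV.card]
          exact lt_of_le_of_lt hbig hcon
        have h3 : (C * (4 * x * Λ)) ^ E < TV.card := Nat.lt_of_mul_lt_mul_left h2
        calc (C * (4 * s * Λ)) ^ E ≤ (C * (4 * x * Λ)) ^ E := by
              apply Nat.pow_le_pow_left
              apply Nat.mul_le_mul_left
              apply Nat.mul_le_mul_right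
              omega
          _ ≤ P.card := by omega
    apply hno
    refine hasCube_succ hcube (by omega) (V := V) ?_
    intro q hq v hv
    exact (Finset.mem_filter.1 hq).2 v hv
  obtain ⟨P', hP'P, τ, hτ, hinj, hcount⟩ := exists_matching (3 ^ k) _ hT hF
  -- `|T| ≤ 2 M |P'|`
  have hsmall : 2 * (U.card ^ (3 ^ k + 1) * ((S i).card / Λ)) ≤ T.card := by
    have h1 : U.card ^ (3 ^ k + 1) ≤ b ^ (3 ^ k + 1) := Nat.pow_le_pow_left hub _
    have h2 : (2 * x ^ 2) * (2 * (U.card ^ (3 ^ k + 1) * ((S i).card / Λ))) ≤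
        (2 * x ^ 2) * T.card := by
      calc (2 * x ^ 2) * (2 * (U.card ^ (3 ^ k + 1) * ((S i).card / Λ)))
          = (4 * x ^ 2 * U.card ^ (3 ^ k + 1)) * ((S i).card / Λ) := by ring
        _ ≤ Λ * ((S i).card / Λ) :=
            Nat.mul_le_mul_right _ ((Nat.mul_le_mul_left _ h1).trans hΛb)
        _ ≤ (S i).card := Nat.mul_div_le _ _
        _ ≤ (2 * x ^ 2) * T.card := hST
    exact Nat.le_of_mul_le_mul_left h2 (by positivity)
  have hTP : T.card ≤ 2 * 3 ^ k * P'.card := by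
    have : 2 * 3 ^ k * P'.card = 2 * (3 ^ k * P'.card) := by ring
    omega
  have hP'ne : P'.Nonempty := by
    apply Finset.card_pos.1
    rcases Nat.eq_zero_or_pos P'.card with h0 | h0
    · rw [h0, mul_zero] at hTP
      have := Finset.card_pos.2 hTne
      omega
    · exact h0
  have hSK : (S i).card ≤ 4 * 3 ^ k * x ^ 2 * P'.card := by
    calc (S i).card ≤ 2 * x ^ 2 * T.card := hST
      _ ≤ 2 * x ^ 2 * (2 * 3 ^ k * P'.card) := Nat.mul_le_mul_left _ hTP
      _ = 4 * 3 ^ k * x ^ 2 * P'.card := by ring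
  obtain ⟨X, hXP, hXne, hXU⟩ := exists_petridis (U := U) (K := 4 * 3 ^ k * x ^ 2) hP'ne
    ((Finset.card_le_card ((Finset.add_subset_add_right hP'P).trans hPU)).trans hSK)
  have hTX : (X.image τ).card = X.card :=
    Finset.card_image_of_injOn (hinj.mono (by exact_mod_cast hXP))
  have hTXT : X.image τ ⊆ T := by
    intro z hz
    obtain ⟨q, hq, rfl⟩ := Finset.mem_image.1 hz
    exact (hτ q (hXP hq)).1
  have hTXU : X.image τ + U ⊆ X + U + U := by
    apply Finset.add_subset_add_right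
    intro z hz
    obtain ⟨q, hq, rfl⟩ := Finset.mem_image.1 hz
    obtain ⟨v, hv, e⟩ := (hτ q (hXP hq)).2
    rw [e]
    exact Finset.add_mem_add hq hv
  have hcube := hasCube_of_add (k := k + 1) (K := (4 * 3 ^ k * x ^ 2) ^ 2) (hXne.image τ) hTXU
    (by rw [hTX]; exact hXU) (Nat.one_le_pow _ _ (by positivity)) hua
  exact hno (hcube.mono hTXT)

/-- the induction step with explicit threshold -/
theorem rclE_step {k C E : ℕ} (hC1 : 1 ≤ C) (hD : RCLE G k C E) {s μ : ℕ} {d : ℕ → Gate}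
    {S : ℕ → Finset G} (hs : 1 ≤ s) (hμ : 1 ≤ μ) (hd : ∀ i < s, Fits S i (d i)) {i : ℕ}
    (hi : i < s) {T : Finset G} (hT : T ⊆ S i) (hST : (S i).card ≤ μ * T.card)
    (hbig : thrE k C E (s * μ) ≤ (S i).card) : HasCube (k + 1) T := by
  classical
  by_contra hno
  obtain ⟨x, hx⟩ : ∃ x, x = s * μ := ⟨_, rfl⟩
  rw [← hx] at hbig
  have hx1 : 1 ≤ x := by rw [hx]; exact Nat.mul_pos hs hμ
  have hsx : s ≤ x := by rw [hx]; exact Nat.le_mul_of_pos_right s hμ
  have hA := thA_pos (k := k) hx1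
  have hB := thB_pos (k := k) hx1
  have hL := thL_pos (k := k) hx1
  have hLD : 1 ≤ thL k x * (C * (4 * x * thL k x)) ^ E := by
    have : 0 < thL k x * (C * (4 * x * thL k x)) ^ E := by positivity
    omega
  have hbS : thB k x < (S i).card := by
    have h1 : 2 * thB k x * 1 ≤ thrE k C E x := by
      unfold thrE
      exact Nat.mul_le_mul_left _ hLD
    omega
  have hbigL : thL k x * (C * (4 * x * thL k x)) ^ E ≤ (S i).card := by
    refine le_trans ?_ hbig
    unfold thrE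
    exact Nat.le_mul_of_pos_left _ (by omega)
  have hAB : thA k x * thA k x ≤ thB k x := by
    unfold thB
    apply Nat.le_mul_of_pos_right
    positivity
  have hBp : (2 * (2 * x ^ 2 * thA k x)) ^ (2 ^ (k + 1)) * 3 ^ (k + 1) ≤ thB k x := by
    unfold thB
    apply Nat.le_mul_of_pos_left
    positivity
  -- the pieces
  let W : ℕ × ℕ → Finset G := fun w =>
    if w.2 = s then
      (if thA k x ≤ (S w.1).card ∧ (S w.1).card ≤ thB k x then
        T.filter fun t => t ∈ ctx d S w.1 i + S w.1 else ∅)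
    else
      (if thB k x < (S w.1).card ∧ (S w.2).card < thA k x then
        T.filter fun t => t ∈ ctx d S w.1 i + S w.2 else ∅)
  have hcover : T ⊆ (Finset.range s ×ˢ Finset.range (s + 1)).biUnion W := by
    intro t ht
    rw [Finset.mem_biUnion]
    rcases exists_path hd hA hAB i hi hbS t (hT ht) with ⟨j, hj, h1, h2, h3⟩ |
      ⟨p, hp, q, hq, h1, h2, h3⟩
    · refine ⟨(j, s), ?_, ?_⟩
      · rw [Finset.mem_product, Finset.mem_range, Finset.mem_range]
        exact ⟨by show j < s; omega, by show s < s + 1; omega⟩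
      · simp only [W]
        rw [if_true, if_pos ⟨h1, h2⟩, Finset.mem_filter]
        exact ⟨ht, h3⟩
    · refine ⟨(p, q), ?_, ?_⟩
      · rw [Finset.mem_product, Finset.mem_range, Finset.mem_range]
        exact ⟨by show p < s; omega, by show q < s + 1; omega⟩
      · simp only [W]
        rw [if_neg (by omega), if_pos ⟨h1, h2⟩, Finset.mem_filter]
        exact ⟨ht, h3⟩
  have hS0 : 0 < (S i).card := by omega
  have hTpos : 0 < T.card := by
    rcases Nat.eq_zero_or_pos T.card with h0 | h0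
    · rw [h0, mul_zero] at hST
      omega
    · exact h0
  obtain ⟨w, hw, hTw⟩ : ∃ w ∈ Finset.range s ×ˢ Finset.range (s + 1),
      T.card ≤ 2 * s ^ 2 * (W w).card := by
    by_contra hcon
    push Not at hcon
    have h1 : T.card ≤ ∑ w ∈ Finset.range s ×ˢ Finset.range (s + 1), (W w).card :=
      (Finset.card_le_card hcover).trans Finset.card_biUnion_le
    have h2 : 2 * s ^ 2 * ∑ w ∈ Finset.range s ×ˢ Finset.range (s + 1), (W w).card ≤
        (s * (s + 1)) * (T.card - 1) := by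
      rw [Finset.mul_sum]
      have := Finset.sum_le_card_nsmul (Finset.range s ×ˢ Finset.range (s + 1))
        (fun w => 2 * s ^ 2 * (W w).card) (T.card - 1)
        (fun w hw => by have := hcon w hw; omega)
      rw [smul_eq_mul, Finset.card_product, Finset.card_range, Finset.card_range] at this
      exact this
    have h3 : s * (s + 1) ≤ 2 * s ^ 2 := by nlinarith
    have h4 : 2 * s ^ 2 * T.card ≤ 2 * s ^ 2 * (T.card - 1) :=
      (Nat.mul_le_mul_left _ h1).trans (h2.trans (Nat.mul_le_mul_right _ h3))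
    have h5 := Nat.le_of_mul_le_mul_left h4 (by positivity)
    omega
  have hSW : (S i).card ≤ 2 * x ^ 2 * (W w).card := by
    calc (S i).card ≤ μ * T.card := hST
      _ ≤ μ * (2 * s ^ 2 * (W w).card) := Nat.mul_le_mul_left _ hTw
      _ ≤ μ * (2 * s ^ 2 * (W w).card) * μ := Nat.le_mul_of_pos_right _ hμ
      _ = 2 * x ^ 2 * (W w).card := by rw [hx]; ring
  have hWne : (W w).Nonempty := by
    apply Finset.card_pos.1
    rcases Nat.eq_zero_or_pos (W w).card with h0 | h0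
    · rw [h0, mul_zero] at hSW
      omega
    · exact h0
  have hWT : W w ⊆ T := by
    simp only [W]
    split_ifs
    · exact Finset.filter_subset _ _
    · exact Finset.empty_subset _
    · exact Finset.filter_subset _ _
    · exact Finset.empty_subset _
  apply hno
  refine HasCube.mono ?_ hWT
  obtain ⟨p, q⟩ := w
  by_cases hq : q = s
  · -- case (A)
    by_cases hc : thA k x ≤ (S p).card ∧ (S p).card ≤ thB k x
    · have hWe : W (p, q) = T.filter fun t => t ∈ ctx d S p i + S p := by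
        simp only [W]
        rw [if_pos hq, if_pos hc]
      refine caseA_e hD hs hL hd hi hx1 hsx (b := thB k x) le_rfl hbigL hc.2 hc.1 ?_ hWne hSW
      rw [hWe]
      intro t ht
      exact (Finset.mem_filter.1 ht).2
    · exfalso
      have hWe : W (p, q) = ∅ := by
        simp only [W]
        rw [if_pos hq, if_neg hc]
      rw [hWe] at hWne
      exact Finset.not_nonempty_empty hWne
  · -- case (B)
    by_cases hc : thB k x < (S p).card ∧ (S q).card < thA k x
    · have hWe : W (p, q) = T.filter fun t => t ∈ ctx d S p i + S q := by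
        simp only [W]
        rw [if_neg hq, if_pos hc]
      refine caseB hd hi hx1 hA hc.2.le (hBp.trans hc.1.le) ?_ hWne hSW
      rw [hWe]
      intro t ht
      exact (Finset.mem_filter.1 ht).2
    · exfalso
      have hWe : W (p, q) = ∅ := by
        simp only [W]
        rw [if_neg hq, if_neg hc]
      rw [hWe] at hWne
      exact Finset.not_nonempty_empty hWne

/-- **Relative cube lemma with explicit constants.** -/
theorem rclE (k : ℕ) : RCLE G k (4 * 3 ^ k) (2 ^ (2 * k ^ 2 + 9 * k)) := by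
  induction k with
  | zero => simpa using rclE_zero (G := G)
  | succ k ih =>
    intro s μ d S hs hμ hd i hi T hT hST hbig
    have h3 : 0 < 3 ^ k := by positivity
    have hC1 : 1 ≤ 4 * 3 ^ k := by omega
    have hE1 : 1 ≤ 2 ^ (2 * k ^ 2 + 9 * k) := Nat.one_le_two_pow
    refine rclE_step hC1 ih hs hμ hd hi hT hST (le_trans ?_ hbig)
    refine (pbe_thrE hC1 (by rw [pow_succ]; omega) hE1 _ (Nat.mul_pos hs hμ)).trans (le_of_eq ?_)
    rw [← pow_add]
    congr 2
    ring

end Pool.Agent.Helper29.RC
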