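import Pool.Agent.Helper29.RC.Main

/-!
The corollaries of the relative cube lemma in the form used in the hand-in.
-/

open scoped Pointwise

namespace Pool.Agent.Helper29.RC

open Pool.Agent.Helper82.CF

/-- If `r_A(n) < 2^(k+1)` for `n ≤ 2x`, a set computed by `s` unions and sumsets contains at most
`C s |S|^(1-1/C)` elements of `A` up to `x`, and the pairs `(a, b)`, `a, b ∈ A` up to `x`, in such
a subset of `ℤ × ℤ` have at most `C s |S|^(1-1/C)` different sums `a + b`. -/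
theorem robust (k : ℕ) : ∃ C : ℝ, 1 ≤ C ∧ ∀ (A : Set ℕ) (x : ℕ),
    (∀ n ≤ 2 * x, rep A n < 2 ^ (k + 1)) →
    (∀ (s : ℕ) (S : ℕ → Finset ℤ), IsCircuit s S → ∀ i < s,
      (({a : ℕ | a ∈ A ∧ a ≤ x ∧ (a : ℤ) ∈ S i} : Set ℕ).ncard : ℝ) ≤
        C * s * ((S i).card : ℝ) ^ (1 - 1 / C)) ∧
    (∀ (s : ℕ) (T : ℕ → Finset (ℤ × ℤ)), IsCircuit s T → ∀ i < s,
      (({p : ℕ × ℕ | p.1 ∈ A ∧ p.2 ∈ A ∧ p.1 ≤ x ∧ p.2 ≤ x ∧ ((p.1 : ℤ), (p.2 : ℤ)) ∈ T i} :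
        Set (ℕ × ℕ)).ncard : ℝ) ≤ C * s * ((T i).card : ℝ) ^ (1 - 1 / C)) ∧
    (∀ (s : ℕ) (T : ℕ → Finset (ℤ × ℤ)), IsCircuit s T → ∀ i < s,
      (({n : ℕ | ∃ a ∈ A, ∃ b ∈ A, a ≤ x ∧ b ≤ x ∧ a + b = n ∧ ((a : ℤ), (b : ℤ)) ∈ T i} :
        Set ℕ).ncard : ℝ) ≤ C * s * ((T i).card : ℝ) ^ (1 - 1 / C)) := by
  classical
  obtain ⟨c, C, hc, h⟩ := lowComplexity (2 ^ (k + 1) - 1)
  set E : ℝ := max 1 (max C (1 / c)) with hE
  have hE1 : 1 ≤ E := le_max_left _ _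
  have hEC : C ≤ E := (le_max_left _ _).trans (le_max_right _ _)
  have hEc : 1 / c ≤ E := (le_max_right _ _).trans (le_max_right _ _)
  have hcE : 1 / E ≤ c := by
    rw [one_div_le (by linarith) hc]
    exact hEc
  have hcomp : ∀ (s N : ℕ), 0 < N →
      C * s * (N : ℝ) ^ (1 - c) ≤ E * s * (N : ℝ) ^ (1 - 1 / E) := by
    intro s N hN
    have hN1 : (1 : ℝ) ≤ N := by exact_mod_cast hN
    have h3 : (N : ℝ) ^ (1 - c) ≤ (N : ℝ) ^ (1 - 1 / E) :=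
      Real.rpow_le_rpow_of_exponent_le hN1 (by linarith)
    calc C * s * (N : ℝ) ^ (1 - c) ≤ E * s * (N : ℝ) ^ (1 - c) := by gcongr
      _ ≤ E * s * (N : ℝ) ^ (1 - 1 / E) := by gcongr
  refine ⟨E, hE1, ?_⟩
  intro A x hA
  have hg : ∀ n ≤ 2 * x, rep A n ≤ 2 ^ (k + 1) - 1 := fun n hn => by
    have := hA n hn
    omega
  obtain ⟨h1, h2⟩ := h A x hg
  have hpair : ∀ (s : ℕ) (T : ℕ → Finset (ℤ × ℤ)), IsCircuit s T → ∀ i < s,
      (({p : ℕ × ℕ | p.1 ∈ A ∧ p.2 ∈ A ∧ p.1 ≤ x ∧ p.2 ≤ x ∧ ((p.1 : ℤ), (p.2 : ℤ)) ∈ T i} :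
        Set (ℕ × ℕ)).Finite) ∧
      (({p : ℕ × ℕ | p.1 ∈ A ∧ p.2 ∈ A ∧ p.1 ≤ x ∧ p.2 ≤ x ∧ ((p.1 : ℤ), (p.2 : ℤ)) ∈ T i} :
        Set (ℕ × ℕ)).ncard : ℝ) ≤ E * s * ((T i).card : ℝ) ^ (1 - 1 / E) := by
    intro s T hT i hi
    set Pr : Set (ℕ × ℕ) := {p : ℕ × ℕ | p.1 ∈ A ∧ p.2 ∈ A ∧ p.1 ≤ x ∧ p.2 ≤ x ∧
      ((p.1 : ℤ), (p.2 : ℤ)) ∈ T i} with hPr
    have hfin : Pr.Finite := by
      refine ((Finset.range (x + 1) ×ˢ Finset.range (x + 1)).finite_toSet).subset ?_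
      rintro p ⟨-, -, h3, h4, -⟩
      rw [Finset.mem_coe, Finset.mem_product, Finset.mem_range, Finset.mem_range]
      omega
    refine ⟨hfin, ?_⟩
    have hinj : Function.Injective (fun p : ℕ × ℕ => ((p.1 : ℤ), (p.2 : ℤ))) := by
      intro p q hpq
      simp only [Prod.mk.injEq] at hpq
      exact Prod.ext (by omega) (by omega)
    have hcard : (hfin.toFinset.image (fun p : ℕ × ℕ => ((p.1 : ℤ), (p.2 : ℤ)))).card =
        Pr.ncard := by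
      rw [Finset.card_image_of_injective _ hinj, Set.ncard_eq_toFinset_card _ hfin]
    have hsub : hfin.toFinset.image (fun p : ℕ × ℕ => ((p.1 : ℤ), (p.2 : ℤ))) ⊆ T i := by
      intro z hz
      obtain ⟨p, hp, rfl⟩ := Finset.mem_image.1 hz
      exact ((Set.Finite.mem_toFinset hfin).1 hp).2.2.2.2
    have h3 := h2 s T hT i hi _ hsub (by
      intro z hz
      obtain ⟨p, hp, rfl⟩ := Finset.mem_image.1 hz
      obtain ⟨a1, a2, a3, a4, -⟩ := (Set.Finite.mem_toFinset hfin).1 hp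
      exact ⟨⟨p.1, a1, a3, rfl⟩, ⟨p.2, a2, a4, rfl⟩⟩)
    rw [hcard] at h3
    rcases Nat.eq_zero_or_pos (T i).card with h0 | h0
    · have h4 := Finset.card_le_card hsub
      rw [hcard, h0] at h4
      have h5 : Pr.ncard = 0 := by omega
      rw [h5]
      simp only [Nat.cast_zero]
      positivity
    · exact h3.trans (hcomp s _ h0)
  refine ⟨?_, fun s T hT i hi => (hpair s T hT i hi).2, ?_⟩
  · intro s S hS i hi
    set Pr : Set ℕ := {a : ℕ | a ∈ A ∧ a ≤ x ∧ (a : ℤ) ∈ S i} with hPr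
    have hfin : Pr.Finite := by
      refine ((Finset.range (x + 1)).finite_toSet).subset ?_
      rintro a ⟨-, h3, -⟩
      rw [Finset.mem_coe, Finset.mem_range]
      omega
    have hcard : (hfin.toFinset.image (fun a : ℕ => (a : ℤ))).card = Pr.ncard := by
      rw [Finset.card_image_of_injective _ Nat.cast_injective,
        Set.ncard_eq_toFinset_card _ hfin]
    have hsub : hfin.toFinset.image (fun a : ℕ => (a : ℤ)) ⊆ S i := by
      intro z hz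
      obtain ⟨a, ha, rfl⟩ := Finset.mem_image.1 hz
      exact ((Set.Finite.mem_toFinset hfin).1 ha).2.2
    have h3 := h1 s S hS i hi _ hsub (by
      intro z hz
      obtain ⟨a, ha, rfl⟩ := Finset.mem_image.1 hz
      obtain ⟨a1, a2, -⟩ := (Set.Finite.mem_toFinset hfin).1 ha
      exact ⟨a, a1, a2, rfl⟩)
    rw [hcard] at h3
    rcases Nat.eq_zero_or_pos (S i).card with h0 | h0
    · have h4 := Finset.card_le_card hsub
      rw [hcard, h0] at h4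
      have h5 : Pr.ncard = 0 := by omega
      rw [h5]
      simp only [Nat.cast_zero]
      positivity
    · exact h3.trans (hcomp s _ h0)
  · intro s T hT i hi
    obtain ⟨hfin, hle⟩ := hpair s T hT i hi
    refine le_trans ?_ hle
    have hsub : {n : ℕ | ∃ a ∈ A, ∃ b ∈ A, a ≤ x ∧ b ≤ x ∧ a + b = n ∧
        ((a : ℤ), (b : ℤ)) ∈ T i} ⊆ (fun p : ℕ × ℕ => p.1 + p.2) '' {p : ℕ × ℕ | p.1 ∈ A ∧
          p.2 ∈ A ∧ p.1 ≤ x ∧ p.2 ≤ x ∧ ((p.1 : ℤ), (p.2 : ℤ)) ∈ T i} := by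
      rintro n ⟨a, ha, b, hb, hax, hbx, hab, hT'⟩
      exact ⟨(a, b), ⟨ha, hb, hax, hbx, hT'⟩, hab⟩
    exact_mod_cast (Set.ncard_le_ncard hsub (hfin.image _)).trans (Set.ncard_image_le hfin)

end Pool.Agent.Helper29.RC
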